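import Pool.Agent.Helper52.TriC
open MeasureTheory ProbabilityTheory Topology Set
open Filter hiding join
open scoped ENNReal NNReal

set_option linter.unusedSectionVars false
namespace Pool.Agent.H946R3.TriA
open Pool.Agent.Helper52.Tri

/-! ### the lattice regime with the bad cyclic order of the offsets -/

def phT (i j : ℤ) : ℤ :=
  if i = 0 then (if j = 0 then -9049 else if j = 1 then -9353 else if j = 2 then -9378 else if j = 3 then -9526 else if j = 4 then -9717 else if j = 5 then -10110 else 0) else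
  if i = 1 then (if j = 0 then -9074 else if j = 1 then -9129 else if j = 2 then -9388 else if j = 3 then -9542 else if j = 4 then -9743 else if j = 5 then -9992 else 0) else
  if i = 2 then (if j = 0 then -9150 else if j = 1 then -9197 else 0) else
  if i = 3 then (if j = 0 then -9266 else if j = 1 then -9208 else 0) else
  if i = 4 then (if j = 0 then -9666 else if j = 1 then -9366 else 0) else
  if i = 5 then (if j = 0 then -10505 else if j = 1 then -10052 else 0) else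
  0

def Ph (i j : ℤ) : ℤ := if i < 6 ∧ j < 6 then phT i j else 1000 * min i j - 2000 * max i j

theorem phT_nonpos (i j : ℤ) : phT i j ≤ 0 := by
  unfold phT
  split_ifs <;> norm_num

theorem Ph_far {i j : ℤ} (h : 6 ≤ i ∨ 6 ≤ j) : Ph i j = 1000 * min i j - 2000 * max i j := by
  unfold Ph; rw [if_neg (by omega)]

noncomputable def UA (t x y : ℝ) : ℝ := 3 * t - x - y + (Ph ⌊x⌋ ⌊y⌋ : ℝ) / 1000 - 12

noncomputable def U5 (W : Load) : ℝ :=
  if W 1 < W 0 ∧ W 2 < W 0 then UA (W 0) (W 0 - W 2) (W 0 - W 1) else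
  if W 2 < W 1 ∧ W 0 < W 1 then UA (W 1) (W 1 - W 0) (W 1 - W 2) else
  UA (W 2) (W 2 - W 1) (W 2 - W 0)

theorem U5_TF {W : Load} {M : Fin 3} {t x y : ℝ} (h : TF W M t x y) (hx : 0 < x) (hy : 0 < y) :
    U5 W = UA t x y := by
  obtain ⟨h1, h2, h3⟩ := h
  unfold U5
  fin_cases M
  · change W 0 = t at h1
    change W 2 = t - x at h2
    change W 1 = t - y at h3
    rw [if_pos ⟨by linarith, by linarith⟩]
    congr 1 <;> linarith
  · change W 1 = t at h1
    change W 0 = t - x at h2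
    change W 2 = t - y at h3
    rw [if_neg (by intro hh; linarith [hh.1]), if_pos ⟨by linarith, by linarith⟩]
    congr 1 <;> linarith
  · change W 2 = t at h1
    change W 1 = t - x at h2
    change W 0 = t - y at h3
    rw [if_neg (by intro hh; linarith [hh.2]), if_neg (by intro hh; linarith [hh.1])]
    congr 1 <;> linarith

noncomputable def A2 (q t x y : ℝ) : ℝ := if q < x then UA t (x - q) y else UA (t + (q - x)) (q - x + y) (q - x)

noncomputable def A1 (q t x y : ℝ) : ℝ := if q < y then UA t x (y - q) else UA (t + (q - y)) (q - y) (q - y + x)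

def N2 (q i j k : ℤ) : ℤ := if q ≤ i then Ph (i - q) j else Ph (q + k) (q - 1 - i)

def N1 (q i j k : ℤ) : ℤ := if q ≤ j then Ph i (j - q) else Ph (q - 1 - j) (q - 1 - k)

theorem A2_eq (n : ℤ) {t x y : ℝ} (hx : NI x) :
    A2 n t x y = 3 * t - x - y + n + (N2 n ⌊x⌋ ⌊y⌋ ⌊y - x⌋ : ℝ) / 1000 - 12 := by
  unfold A2 N2
  by_cases h : (n : ℝ) < x
  · rw [if_pos h, if_pos ((NI_lt_iff hx n).1 h)]
    unfold UA
    rw [Int.floor_sub_intCast]
    ring
  · rw [if_neg h, if_neg (fun h' => h ((NI_lt_iff hx n).2 h'))]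
    unfold UA
    rw [show (n : ℝ) - x + y = (y - x) + n by ring, Int.floor_add_intCast,
      show (n : ℝ) - x = -x + n by ring, Int.floor_add_intCast, NI_neg_floor hx]
    rw [show n + ⌊y - x⌋ = ⌊y - x⌋ + n by ring, show n - 1 - ⌊x⌋ = -⌊x⌋ - 1 + n by ring]
    ring

theorem A1_eq (n : ℤ) {t x y : ℝ} (hy : NI y) (hyx : NI (y - x)) :
    A1 n t x y = 3 * t - x - y + n + (N1 n ⌊x⌋ ⌊y⌋ ⌊y - x⌋ : ℝ) / 1000 - 12 := by
  unfold A1 N1
  by_cases h : (n : ℝ) < y
  · rw [if_pos h, if_pos ((NI_lt_iff hy n).1 h)]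
    unfold UA
    rw [Int.floor_sub_intCast]
    ring
  · rw [if_neg h, if_neg (fun h' => h ((NI_lt_iff hy n).2 h'))]
    unfold UA
    rw [show (n : ℝ) - y + x = -(y - x) + n by ring, Int.floor_add_intCast, NI_neg_floor hyx,
      show (n : ℝ) - y = -y + n by ring, Int.floor_add_intCast, NI_neg_floor hy]
    rw [show n - 1 - ⌊y - x⌋ = -⌊y - x⌋ - 1 + n by ring, show n - 1 - ⌊y⌋ = -⌊y⌋ - 1 + n by ring]
    ring

theorem cellA (i j k : ℤ) (hk : k = j - i - 1) (hi : 0 ≤ i) (hj : 0 ≤ j) (hm : i ≤ 1 ∨ j ≤ 1) :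
    4579 + 3 * Ph i j ≤ 3000 + N2 1 i j k + N1 2 i j k +
      (if 0 ≤ k then 1000 + N1 1 i j k else 2000 + N2 2 i j k) := by
  subst hk
  by_cases h8 : i < 8 ∧ j < 8
  · obtain ⟨h1, h2⟩ := h8
    interval_cases i <;> interval_cases j <;> first | (exfalso; omega) | decide
  · by_cases ha8 : 8 ≤ i
    · have hb2 : j ≤ 1 := by omega
      rw [if_neg (by omega)]
      unfold N2 N1
      rw [if_pos (show (1:ℤ) ≤ i by omega), if_neg (show ¬ (2:ℤ) ≤ j by omega), if_pos (show (2:ℤ) ≤ i by omega)]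
      rw [Ph_far (i := i) (j := j) (by omega), Ph_far (i := i - 1) (by omega), Ph_far (i := i - 2) (by omega),
        Ph_far (i := 2 - 1 - j) (by omega)]
      omega
    · have hb8 : 8 ≤ j := by omega
      have ha2 : i ≤ 1 := by omega
      rw [if_pos (by omega)]
      unfold N2 N1
      rw [if_pos (show 2 ≤ j by omega), if_pos (show 1 ≤ j by omega)]
      rw [Ph_far (i := i) (j := j) (by omega), Ph_far (i := i) (j := j - 1) (by omega),
        Ph_far (i := i) (j := j - 2) (by omega)]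
      by_cases ha0 : 1 ≤ i
      · rw [if_pos ha0, Ph_far (i := i - 1) (j := j) (by omega)]
        omega
      · rw [if_neg ha0, Ph_far (i := 1 + (j - i - 1)) (by omega)]
        omega

theorem cellInc (i j k : ℤ) (hk : k = j - i - 1) (hi : 0 ≤ i) (hj : 0 ≤ j) (hm : i ≤ 1 ∨ j ≤ 1) :
    (-14000 ≤ 1000 + N2 1 i j k - Ph i j ∧ 1000 + N2 1 i j k - Ph i j ≤ 14000) ∧
    (-14000 ≤ 2000 + N1 2 i j k - Ph i j ∧ 2000 + N1 2 i j k - Ph i j ≤ 14000) ∧
    (-14000 ≤ (if 0 ≤ k then 1000 + N1 1 i j k else 2000 + N2 2 i j k) - Ph i j ∧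
      (if 0 ≤ k then 1000 + N1 1 i j k else 2000 + N2 2 i j k) - Ph i j ≤ 14000) := by
  subst hk
  by_cases h8 : i < 8 ∧ j < 8
  · obtain ⟨h1, h2⟩ := h8
    interval_cases i <;> interval_cases j <;> first | (exfalso; omega) | decide
  · by_cases ha8 : 8 ≤ i
    · have hb2 : j ≤ 1 := by omega
      rw [if_neg (by omega)]
      unfold N2 N1
      rw [if_pos (show (1:ℤ) ≤ i by omega), if_neg (show ¬ (2:ℤ) ≤ j by omega), if_pos (show (2:ℤ) ≤ i by omega)]
      rw [Ph_far (i := i) (j := j) (by omega), Ph_far (i := i - 1) (by omega), Ph_far (i := i - 2) (by omega),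
        Ph_far (i := 2 - 1 - j) (by omega)]
      omega
    · have hb8 : 8 ≤ j := by omega
      have ha2 : i ≤ 1 := by omega
      rw [if_pos (by omega)]
      unfold N2 N1
      rw [if_pos (show 2 ≤ j by omega), if_pos (show 1 ≤ j by omega)]
      rw [Ph_far (i := i) (j := j) (by omega), Ph_far (i := i) (j := j - 1) (by omega),
        Ph_far (i := i) (j := j - 2) (by omega)]
      by_cases ha0 : 1 ≤ i
      · rw [if_pos ha0, Ph_far (i := i - 1) (j := j) (by omega)]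
        omega
      · rw [if_neg ha0, Ph_far (i := 1 + (j - i - 1)) (by omega)]
        omega

/-- gaps in the bad class -/
structure Cl (x y : ℝ) : Prop where
  hx : 0 < x
  hy : 0 < y
  nx : NI x
  ny : NI y
  nyx : NI (y - x)
  st : x < 2 ∨ y < 2
  fl : ⌊y - x⌋ = ⌊y⌋ - ⌊x⌋ - 1

theorem Cl.kk {x y : ℝ} (h : Cl x y) : (0 ≤ ⌊y - x⌋) ↔ x < y := by
  rw [Int.floor_nonneg]
  constructor
  · intro h1
    rcases eq_or_lt_of_le h1 with h' | h'
    · exact absurd h'.symm (by have := h.nyx 0; push_cast at this; exact this)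
    · linarith
  · intro h1; linarith

theorem Cl.idx {x y : ℝ} (h : Cl x y) : 0 ≤ ⌊x⌋ ∧ 0 ≤ ⌊y⌋ ∧ (⌊x⌋ ≤ 1 ∨ ⌊y⌋ ≤ 1) := by
  refine ⟨Int.floor_nonneg.2 h.hx.le, Int.floor_nonneg.2 h.hy.le, ?_⟩
  rcases h.st with h1 | h1
  · left
    have : ⌊x⌋ < 2 := by rw [Int.floor_lt]; exact_mod_cast h1
    omega
  · right
    have : ⌊y⌋ < 2 := by rw [Int.floor_lt]; exact_mod_cast h1
    omega

theorem U5_A2 {W : Load} {M : Fin 3} {t x y q : ℝ} (h : TF W M t x y) (_hx : 0 < x) (hy : 0 < y)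
    (hq : x ≠ q) : U5 (Function.update W (M + 2) (W (M + 2) + q)) = A2 q t x y := by
  unfold A2
  by_cases hqx : q < x
  · rw [if_pos hqx]
    exact U5_TF (TF_up2 h) (by linarith) hy
  · rw [if_neg hqx]
    have : x < q := lt_of_le_of_ne (not_lt.1 hqx) hq
    exact U5_TF (TF_up2' h) (by linarith) (by linarith)

theorem U5_A1 {W : Load} {M : Fin 3} {t x y q : ℝ} (h : TF W M t x y) (hx : 0 < x) (_hy : 0 < y)
    (hq : y ≠ q) : U5 (Function.update W (M + 1) (W (M + 1) + q)) = A1 q t x y := by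
  unfold A1
  by_cases hqx : q < y
  · rw [if_pos hqx]
    exact U5_TF (TF_up1 h) hx (by linarith)
  · rw [if_neg hqx]
    have : y < q := lt_of_le_of_ne (not_lt.1 hqx) hq
    exact U5_TF (TF_up1' h) (by linarith) (by linarith)

theorem U5_J {W : Load} {M : Fin 3} {t x y : ℝ} (h : TF W M t x y) (hs : Cl x y) :
    U5 (J (M + 2) W) = 3 * t - x - y - 12 + ((1000 + N2 1 ⌊x⌋ ⌊y⌋ ⌊y - x⌋ : ℤ) : ℝ) / 1000 ∧
    U5 (J M W) = 3 * t - x - y - 12 + ((2000 + N1 2 ⌊x⌋ ⌊y⌋ ⌊y - x⌋ : ℤ) : ℝ) / 1000 ∧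
    U5 (J (M + 1) W) = 3 * t - x - y - 12 + ((if 0 ≤ ⌊y - x⌋ then 1000 + N1 1 ⌊x⌋ ⌊y⌋ ⌊y - x⌋ else
      2000 + N2 2 ⌊x⌋ ⌊y⌋ ⌊y - x⌋ : ℤ) : ℝ) / 1000 := by
  have x1 : x ≠ 1 := by have := hs.nx 1; push_cast at this; exact this
  have x2 : x ≠ 2 := by have := hs.nx 2; push_cast at this; exact this
  have y1 : y ≠ 1 := by have := hs.ny 1; push_cast at this; exact this
  have y2 : y ≠ 2 := by have := hs.ny 2; push_cast at this; exact this
  have a1 := A2_eq 1 (t := t) (y := y) hs.nx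
  have a2 := A1_eq 2 (t := t) hs.ny hs.nyx
  have a3 := A1_eq 1 (t := t) hs.ny hs.nyx
  have a4 := A2_eq 2 (t := t) (y := y) hs.nx
  push_cast at a1 a2 a3 a4
  refine ⟨?_, ?_, ?_⟩
  · rw [J_c2 h, if_pos hs.hx, U5_A2 h hs.hx hs.hy x1, a1]
    push_cast; ring
  · rw [J_c0 h hs.hy.le, U5_A1 h hs.hx hs.hy y2, a2]
    push_cast; ring
  · rw [J_c1 h]
    by_cases hxy : x < y
    · rw [if_pos hxy, if_pos (hs.kk.2 hxy), U5_A1 h hs.hx hs.hy y1, a3]
      push_cast; ring
    · rw [if_neg hxy, if_neg (fun h => hxy (hs.kk.1 h)), U5_A2 h hs.hx hs.hy x2, a4]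
      push_cast; ring

theorem U5_val {W : Load} {M : Fin 3} {t x y : ℝ} (h : TF W M t x y) (hs : Cl x y) :
    U5 W = 3 * t - x - y - 12 + (Ph ⌊x⌋ ⌊y⌋ : ℝ) / 1000 := by
  rw [U5_TF h hs.hx hs.hy]; unfold UA; ring

/-- lattice states in the strip with the bad cyclic order of the offsets -/
def Lat1 (W : Load) : Prop :=
  (∀ M : Fin 3, Int.fract (W M - W (M + 1)) < Int.fract (W M - W (M + 2))) ∧
  (∀ i j, i ≠ j → NI (W i - W j)) ∧ (∀ i, ∃ j, j ≠ i ∧ W i - 2 ≤ W j)

theorem Lat1_top {W : Load} (hW : Lat1 W) :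
    ∃ (M : Fin 3) (t x y : ℝ), TF W M t x y ∧ Cl x y := by
  obtain ⟨hf, hg, hst⟩ := hW
  obtain ⟨M, hM⟩ : ∃ M, ∀ i, W i ≤ W M := by
    obtain ⟨M, _, hM⟩ := Finset.exists_max_image Finset.univ W ⟨0, Finset.mem_univ 0⟩
    exact ⟨M, fun i => hM i (Finset.mem_univ i)⟩
  have n1 : M + 1 ≠ M := by fin_cases M <;> decide
  have n2 : M + 2 ≠ M := by fin_cases M <;> decide
  have n3 : M + 2 ≠ M + 1 := by fin_cases M <;> decide
  have gap_pos : ∀ j, j ≠ M → 0 < W M - W j := by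
    intro j hj
    have := hg M j hj.symm 0
    push_cast at this
    have h2 := hM j
    rcases h2.eq_or_lt with h3 | h3
    · exact absurd (by linarith) this
    · linarith
  refine ⟨M, W M, W M - W (M + 2), W M - W (M + 1), ⟨rfl, by ring, by ring⟩, ?_⟩
  refine ⟨gap_pos _ n2, gap_pos _ n1, hg _ _ n2.symm, hg _ _ n1.symm, ?_, ?_, ?_⟩
  · rw [show W M - W (M + 1) - (W M - W (M + 2)) = W (M + 2) - W (M + 1) by ring]
    exact hg _ _ n3
  · obtain ⟨j, hj, hj2⟩ := hst M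
    have hj' : j = M + 1 ∨ j = M + 2 := by
      fin_cases M <;> fin_cases j <;> simp_all
    rcases hj' with hj' | hj'
    · right
      rw [hj'] at hj2
      have := hg M (M + 1) n1.symm 2
      push_cast at this
      exact lt_of_le_of_ne (by linarith) this
    · left
      rw [hj'] at hj2
      have := hg M (M + 2) n2.symm 2
      push_cast at this
      exact lt_of_le_of_ne (by linarith) this
  · rw [Int.floor_eq_iff]
    have e1 := Int.floor_add_fract (W M - W (M + 1))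
    have e2 := Int.floor_add_fract (W M - W (M + 2))
    have e3 := hf M
    have e4 := Int.fract_nonneg (W M - W (M + 1))
    have e5 := Int.fract_lt_one (W M - W (M + 2))
    push_cast
    constructor <;> linarith

theorem U5_drift {W : Load} (hW : Lat1 W) : 3 * U5 W + 4579 / 1000 ≤ ∑ c, U5 (J c W) := by
  obtain ⟨M, t, x, y, hTF, hs⟩ := Lat1_top hW
  obtain ⟨e1, e2, e3⟩ := U5_J hTF hs
  obtain ⟨hi, hj, hm⟩ := hs.idx
  have hc := cellA ⌊x⌋ ⌊y⌋ ⌊y - x⌋ hs.fl hi hj hm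
  have hc' : (4579:ℝ) + 3 * (Ph ⌊x⌋ ⌊y⌋ : ℝ) ≤ 3000 + (N2 1 ⌊x⌋ ⌊y⌋ ⌊y - x⌋ : ℝ) + (N1 2 ⌊x⌋ ⌊y⌋ ⌊y - x⌋ : ℝ) +
      ((if 0 ≤ ⌊y - x⌋ then 1000 + N1 1 ⌊x⌋ ⌊y⌋ ⌊y - x⌋ else 2000 + N2 2 ⌊x⌋ ⌊y⌋ ⌊y - x⌋ : ℤ) : ℝ) := by
    exact_mod_cast hc
  rw [sum_J M, e1, e2, e3, U5_val hTF hs]
  push_cast at hc' ⊢
  linarith

theorem U5_inc {W : Load} (hW : Lat1 W) (c : Fin 3) : |U5 (J c W) - U5 W| ≤ 14 := by
  obtain ⟨M, t, x, y, hTF, hs⟩ := Lat1_top hW
  obtain ⟨e1, e2, e3⟩ := U5_J hTF hs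
  obtain ⟨hi, hj, hm⟩ := hs.idx
  obtain ⟨hc1, hc2, hc3⟩ := cellInc ⌊x⌋ ⌊y⌋ ⌊y - x⌋ hs.fl hi hj hm
  have hc : c = M + 2 ∨ c = M ∨ c = M + 1 := by
    fin_cases M <;> fin_cases c <;> simp
  have key : ∀ (h : ℤ), (-14000 ≤ h - Ph ⌊x⌋ ⌊y⌋ ∧ h - Ph ⌊x⌋ ⌊y⌋ ≤ 14000) →
      |3 * t - x - y - 12 + (h:ℝ) / 1000 - (3 * t - x - y - 12 + (Ph ⌊x⌋ ⌊y⌋ : ℝ) / 1000)| ≤ 14 := by
    intro h hh
    have h1 : (-14000:ℝ) ≤ (h:ℝ) - Ph ⌊x⌋ ⌊y⌋ := by exact_mod_cast hh.1
    have h2 : (h:ℝ) - Ph ⌊x⌋ ⌊y⌋ ≤ 14000 := by exact_mod_cast hh.2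
    rw [abs_le]
    constructor <;> linarith
  rw [U5_val hTF hs]
  rcases hc with hc | hc | hc
  · subst hc; rw [e1]; exact key _ hc1
  · subst hc; rw [e2]; exact key _ hc2
  · subst hc; rw [e3]; exact key _ hc3

/-- `U5` is at most three times any coordinate -/
theorem U5_le {W : Load} (hW : Lat1 W) (i : Fin 3) : U5 W ≤ 3 * W i := by
  obtain ⟨M, t, x, y, hTF, hs⟩ := Lat1_top hW
  rw [U5_val hTF hs]
  have hx := hs.hx
  have hy := hs.hy
  have key : 3 * t - x - y - 12 + (Ph ⌊x⌋ ⌊y⌋ : ℝ) / 1000 ≤ 3 * (t - x) ∧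
      3 * t - x - y - 12 + (Ph ⌊x⌋ ⌊y⌋ : ℝ) / 1000 ≤ 3 * (t - y) := by
    by_cases h6 : ⌊x⌋ < 6 ∧ ⌊y⌋ < 6
    · have h1 : (Ph ⌊x⌋ ⌊y⌋ : ℝ) ≤ 0 := by
        have : Ph ⌊x⌋ ⌊y⌋ ≤ 0 := by unfold Ph; rw [if_pos h6]; exact phT_nonpos _ _
        exact_mod_cast this
      have h2 : x < 6 := by have := Int.floor_lt.1 h6.1; exact_mod_cast this
      have h3 : y < 6 := by have := Int.floor_lt.1 h6.2; exact_mod_cast this
      constructor <;> linarith
    · rw [Ph_far (by omega)]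
      push_cast
      have m1 := le_max_left (⌊x⌋ : ℝ) ⌊y⌋
      have m2 := le_max_right (⌊x⌋ : ℝ) ⌊y⌋
      have m3 := min_le_left (⌊x⌋ : ℝ) ⌊y⌋
      have m4 := min_le_right (⌊x⌋ : ℝ) ⌊y⌋
      have b1 := Int.floor_le x
      have b2 := Int.floor_le y
      have b3 := Int.lt_floor_add_one x
      have b4 := Int.lt_floor_add_one y
      constructor <;> linarith
  obtain ⟨e1, e2, e3⟩ := hTF
  have hi : i = M + 2 ∨ i = M ∨ i = M + 1 := by
    fin_cases M <;> fin_cases i <;> simp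
  rcases hi with hi | hi | hi
  · subst hi; rw [e2]; exact key.1
  · subst hi; rw [e1]; linarith [key.1]
  · subst hi; rw [e3]; exact key.2

theorem drain_eq_sub {W : Load} {s : ℝ} (h : ∀ i, s ≤ W i) : drain W s = fun i => W i - s := by
  funext i; unfold drain; exact max_eq_left (by linarith [h i])

theorem Lat1_sub {W : Load} (hW : Lat1 W) {s : ℝ} (h : ∀ i, s ≤ W i) :
    Lat1 (drain W s) ∧ U5 (drain W s) = U5 W - 3 * s := by
  have hL : Lat1 (drain W s) := by
    rw [drain_eq_sub h]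
    refine ⟨fun M => ?_, fun i j hij => ?_, fun i => ?_⟩
    · have := hW.1 M
      show Int.fract ((W M - s) - (W (M + 1) - s)) < Int.fract ((W M - s) - (W (M + 2) - s))
      rw [show (W M - s) - (W (M + 1) - s) = W M - W (M + 1) by ring,
        show (W M - s) - (W (M + 2) - s) = W M - W (M + 2) by ring]
      exact this
    · have := hW.2.1 i j hij
      show NI ((W i - s) - (W j - s))
      rw [show (W i - s) - (W j - s) = W i - W j by ring]
      exact this
    · obtain ⟨j, hj, hj2⟩ := hW.2.2 i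
      exact ⟨j, hj, by linarith⟩
  refine ⟨hL, ?_⟩
  obtain ⟨M, t, x, y, hTF, hs⟩ := Lat1_top hW
  have hTF' : TF (drain W s) M (t - s) x y := by
    rw [drain_eq_sub h]
    obtain ⟨e1, e2, e3⟩ := hTF
    refine ⟨by show W M - s = _; rw [e1], by show W (M + 2) - s = _; rw [e2]; ring,
      by show W (M + 1) - s = _; rw [e3]; ring⟩
  rw [U5_val hTF hs, U5_val hTF' hs]; ring

theorem Lat1_J {W : Load} (hW : Lat1 W) (c : Fin 3) : Lat1 (J c W) := by
  obtain ⟨hf, hg, hst⟩ := hW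
  have key : ∀ (p o : Fin 3) (q : ℤ), p ≠ o → 1 ≤ q → q ≤ 2 → W p ≤ W o →
      Lat1 (Function.update W p (W p + q)) := by
    intro p o q hpo hq1 hq2 hle
    have hq1' : (1:ℝ) ≤ q := by exact_mod_cast hq1
    have hq2' : (q:ℝ) ≤ 2 := by exact_mod_cast hq2
    have hdiff : ∀ i j, ∃ m : ℤ, Function.update W p (W p + q) i - Function.update W p (W p + q) j =
        W i - W j + m := by
      intro i j
      by_cases hip : i = p
      · by_cases hjp : j = p
        · exact ⟨0, by rw [hip, hjp]; simp⟩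
        · refine ⟨q, ?_⟩
          subst hip
          rw [Function.update_self, Function.update_of_ne hjp]; ring
      · by_cases hjp : j = p
        · refine ⟨-q, ?_⟩
          subst hjp
          rw [Function.update_self, Function.update_of_ne hip]
          push_cast; ring
        · refine ⟨0, ?_⟩
          rw [Function.update_of_ne hjp, Function.update_of_ne hip]
          push_cast; ring
    refine ⟨?_, ?_, ?_⟩
    · intro M
      obtain ⟨m1, hm1⟩ := hdiff M (M + 1)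
      obtain ⟨m2, hm2⟩ := hdiff M (M + 2)
      rw [hm1, hm2, Int.fract_add_intCast, Int.fract_add_intCast]
      exact hf M
    · intro i j hij n hn
      obtain ⟨m, hm⟩ := hdiff i j
      rw [hm] at hn
      apply hg i j hij (n - m)
      push_cast; linarith
    · intro i
      by_cases hip : i = p
      · refine ⟨o, by rw [hip]; exact hpo.symm, ?_⟩
        rw [hip, Function.update_self, Function.update_of_ne hpo.symm]
        linarith
      · obtain ⟨j, hj, hj2⟩ := hst i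
        refine ⟨j, hj, ?_⟩
        rw [Function.update_of_ne hip]
        by_cases hjp : j = p
        · subst hjp; rw [Function.update_self]; linarith
        · rw [Function.update_of_ne hjp]; exact hj2
  unfold J join
  dsimp only
  have hcc : c ≠ c + 1 := by fin_cases c <;> decide
  split_ifs with h
  · have := key c (c + 1) 1 hcc le_rfl (by norm_num) h.le
    push_cast at this; exact this
  · have := key (c + 1) c 2 hcc.symm (by norm_num) le_rfl (not_lt.1 h)
    push_cast at this; exact this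

theorem measurable_UA : Measurable (fun p : ℝ × ℝ × ℝ => UA p.1 p.2.1 p.2.2) := by
  unfold UA
  have hx : Measurable (fun p : ℝ × ℝ × ℝ => p.2.1) := measurable_fst.comp measurable_snd
  have hy : Measurable (fun p : ℝ × ℝ × ℝ => p.2.2) := measurable_snd.comp measurable_snd
  have h3 : Measurable (fun q : ℤ × ℤ => (Ph q.1 q.2 : ℝ)) := measurable_of_countable _
  have h4 : Measurable (fun p : ℝ × ℝ × ℝ => ((⌊p.2.1⌋, ⌊p.2.2⌋) : ℤ × ℤ)) :=
    (Int.measurable_floor.comp hx).prodMk (Int.measurable_floor.comp hy)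
  exact ((((measurable_fst.const_mul 3).sub hx).sub hy).add ((h3.comp h4).div_const 1000)).sub_const 12

theorem measurable_U5 : Measurable U5 := by
  have hW : ∀ i : Fin 3, Measurable (fun W : Load => W i) := fun i => measurable_pi_apply i
  unfold U5
  apply Measurable.ite
  · exact (measurableSet_lt (hW 1) (hW 0)).inter (measurableSet_lt (hW 2) (hW 0))
  · exact measurable_UA.comp ((hW 0).prodMk (((hW 0).sub (hW 2)).prodMk ((hW 0).sub (hW 1))))
  · apply Measurable.ite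
    · exact (measurableSet_lt (hW 2) (hW 1)).inter (measurableSet_lt (hW 0) (hW 1))
    · exact measurable_UA.comp ((hW 1).prodMk (((hW 1).sub (hW 0)).prodMk ((hW 1).sub (hW 2))))
    · exact measurable_UA.comp ((hW 2).prodMk (((hW 2).sub (hW 1)).prodMk ((hW 2).sub (hW 0))))

end Pool.Agent.H946R3.TriA
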