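import Pool.Agent.H946R3.Tri.AReach
open MeasureTheory ProbabilityTheory Topology Set
open Filter hiding join
open scoped ENNReal NNReal BoundedContinuousFunction

set_option linter.unusedSectionVars false
namespace Pool.Agent.H946R3.TriA
open Pool.Agent.Helper52.Tri

theorem exp_one_half : Real.exp (-1) ≤ 1 / 2 := by
  have h2 := Real.add_one_le_exp (1:ℝ)
  rw [Real.exp_neg, one_div]
  apply inv_anti₀ (by norm_num)
  linarith

/-- from a good state the escape probability is bounded below, uniformly -/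
theorem escape_unif (k : ℝ) : ∀ᶠ t : ℝ in atTop, ∀ y ∈ Gd,
    Us (kap lam0) drain join (fun y => ENNReal.ofReal (gk k y)) t y ≤ ENNReal.ofReal (3 / 4) := by
  have h1 : Tendsto (fun t : ℝ => dd * t) atTop atTop := tendsto_id.const_mul_atTop dd_pos
  have h2 := Real.tendsto_exp_neg_atTop_nhds_zero.comp h1
  have h3 := (h2.const_mul (Real.exp (3 * ph * k))).const_add 1
  rw [mul_zero, add_zero] at h3
  have h4 : ∀ᶠ t : ℝ in atTop, 1 + Real.exp (3 * ph * k) * Real.exp (-(dd * t)) < 3 / 2 :=
    h3.eventually_lt_const (by norm_num)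
  filter_upwards [h4, eventually_ge_atTop (0:ℝ)] with t ht ht0 y hy
  have hb := escape_bound hy.1 k ht0
  have h5 := expect_eq (μK := mu12) lam0_pos measurable_drain measurable_join (measurable_gk k).ennreal_ofReal t y
  have h6 : Us (kap lam0) drain join (fun y => ENNReal.ofReal (gk k y)) t y =
      ∫⁻ ω, ENNReal.ofReal (gk k (gW drain join y ω t)) ∂(Measure.infinitePi (fun _ : ℕ => kap lam0)) := h5.symm
  rw [h6]
  refine hb.trans (ENNReal.ofReal_le_ofReal ?_)
  have e1 : Real.exp (-(ph * U5 y)) ≤ 1 / 2 := by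
    refine le_trans (Real.exp_le_exp.2 ?_) exp_one_half
    have h7 : (1000000:ℝ) ≤ U5 y := hy.2
    unfold ph
    linarith
  have e2 : 0 ≤ 1 + Real.exp (3 * ph * k) * Real.exp (-(dd * t)) := by positivity
  calc Real.exp (-(ph * U5 y)) * (1 + Real.exp (3 * ph * k) * Real.exp (-(dd * t))) ≤
      1 / 2 * (3 / 2) := mul_le_mul e1 ht.le e2 (by norm_num)
    _ = 3 / 4 := by norm_num

/-- the probability that some workload is at most `k` stays below `1 - Q/4` -/
theorem escape0 (k : ℝ) : ∀ᶠ t : ℝ in atTop,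
    ∫⁻ ω, ENNReal.ofReal (gk k (gW drain join 0 ω t)) ∂(PP lam0) + ENNReal.ofReal (1 / 4) * Q (1 / 2) 0 ≤ 1 := by
  have hp := isProbabilityMeasure_expMeasure lam0_pos
  have key : ∀ᶠ t : ℝ in atTop, ∫⁻ ω, ENNReal.ofReal (gk k (gW drain join 0 ω (1 / 2 + t))) ∂(PP lam0) +
      ENNReal.ofReal (1 / 4) * Q (1 / 2) 0 ≤ 1 := by
    filter_upwards [escape_unif k, eventually_ge_atTop (0:ℝ)] with t ht ht0
    have hE : ∀ (h : Load → ℝ≥0∞), Measurable h → ∀ r x, ∫⁻ ω, h (gW drain join x ω r) ∂(PP lam0) =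
        Us (kap lam0) drain join h r x := fun h hh r x =>
      expect_eq (μK := mu12) lam0_pos measurable_drain measurable_join hh r x
    set hk : Load → ℝ≥0∞ := fun y => ENNReal.ofReal (gk k y) with hhk
    have hkm : Measurable hk := (measurable_gk k).ennreal_ofReal
    have hUg : Measurable (fun y => Us (kap lam0) drain join hk t y) :=
      (measurable_Us (kap lam0) measurable_drain measurable_join hkm).comp (measurable_const.prodMk measurable_id)
    have hsemi : ∫⁻ ω, hk (gW drain join 0 ω (1 / 2 + t)) ∂(PP lam0) =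
        ∫⁻ ω, Us (kap lam0) drain join hk t (gW drain join 0 ω (1 / 2)) ∂(PP lam0) := by
      rw [hE hk hkm, hE _ hUg]
      exact Us_semigroup lam0_pos measurable_drain measurable_join (fun x s t hs ht => drain_drain x s t hs ht)
        hkm ht0 (1 / 2) (by norm_num) 0
    have hQ : Q (1 / 2) 0 = ∫⁻ ω, gg (gW drain join 0 ω (1 / 2)) ∂(PP lam0) := (hE gg measurable_gg (1 / 2) 0).symm
    have hgm : Measurable (fun ω : ℕ → ℝ × (Fin 3 × (ℝ × ℝ)) => gg (gW drain join 0 ω (1 / 2))) :=
      measurable_gg.comp (measurable_gW' 0 (1 / 2))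
    have hone : ∀ y, Us (kap lam0) drain join hk t y ≤ 1 := by
      intro y
      rw [← hE hk hkm]
      calc _ ≤ ∫⁻ _ω, (1:ℝ≥0∞) ∂(PP lam0) := by
            apply lintegral_mono
            intro ω
            exact ENNReal.ofReal_le_one.2 (gk_le _ _)
        _ = 1 := by simp
    show ∫⁻ ω, hk (gW drain join 0 ω (1 / 2 + t)) ∂(PP lam0) + ENNReal.ofReal (1 / 4) * Q (1 / 2) 0 ≤ 1
    rw [hsemi, hQ, ← lintegral_const_mul _ hgm, ← lintegral_add_right _ (hgm.const_mul _)]
    calc _ ≤ ∫⁻ _ω, (1:ℝ≥0∞) ∂(PP lam0) := by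
          apply lintegral_mono
          intro ω
          dsimp only
          by_cases hy : gW drain join 0 ω (1 / 2) ∈ Gd
          · have e1 : gg (gW drain join 0 ω (1 / 2)) = 1 := by unfold gg; rw [indicator_of_mem hy]; rfl
            rw [e1, mul_one]
            calc _ ≤ ENNReal.ofReal (3 / 4) + ENNReal.ofReal (1 / 4) := by gcongr; exact ht _ hy
              _ = 1 := by rw [← ENNReal.ofReal_add (by norm_num) (by norm_num)]; norm_num
          · have e1 : gg (gW drain join 0 ω (1 / 2)) = 0 := by unfold gg; rw [indicator_of_notMem hy]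
            rw [e1, mul_zero, add_zero]
            exact hone _
      _ = 1 := by simp
  have h2 := (tendsto_atTop_add_const_right atTop (-(1 / 2) : ℝ) tendsto_id).eventually key
  filter_upwards [h2] with t ht
  have e : (1 / 2 : ℝ) + (id t + -(1 / 2)) = t := by simp
  rw [e] at ht
  exact ht

theorem Q0_le : Q (1 / 2) 0 ≤ 1 := by
  have hp := isProbabilityMeasure_expMeasure lam0_pos
  have hE : ∫⁻ ω, gg (gW drain join 0 ω (1 / 2)) ∂(PP lam0) = Q (1 / 2) 0 :=
    expect_eq (μK := mu12) lam0_pos measurable_drain measurable_join measurable_gg (1 / 2) 0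
  rw [← hE]
  calc _ ≤ ∫⁻ _ω, (1:ℝ≥0∞) ∂(PP lam0) := by
        apply lintegral_mono
        intro ω
        unfold gg
        exact indicator_le_self' (fun _ _ => zero_le) _
    _ = 1 := by simp

/-- the amount of escaping mass -/
noncomputable def qq : ℝ := (Q (1 / 2) 0).toReal / 4

theorem qq_pos : 0 < qq := by
  unfold qq
  have := ENNReal.toReal_pos Q0_pos.ne' (ne_top_of_le_ne_top ENNReal.one_ne_top Q0_le)
  positivity

theorem escape_real0 (k : ℝ) : ∀ᶠ t : ℝ in atTop,
    ∫ ω, gk k (gW drain join 0 ω t) ∂(PP lam0) ≤ 1 - qq := by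
  have hp := isProbabilityMeasure_expMeasure lam0_pos
  filter_upwards [escape0 k] with t ht
  rw [integral_eq_lintegral_of_nonneg_ae (Eventually.of_forall (fun ω => gk_nonneg _ _))
    ((measurable_gk k).comp (measurable_gW' 0 t)).aestronglyMeasurable]
  have hne : Q (1 / 2) 0 ≠ ⊤ := ne_top_of_le_ne_top ENNReal.one_ne_top Q0_le
  have h1 : ENNReal.ofReal (1 / 4) * Q (1 / 2) 0 = ENNReal.ofReal qq := by
    unfold qq
    rw [← ENNReal.ofReal_toReal hne, ← ENNReal.ofReal_mul (by norm_num), ENNReal.toReal_ofReal ENNReal.toReal_nonneg]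
    congr 1; ring
  rw [h1] at ht
  set I := ∫⁻ ω, ENNReal.ofReal (gk k (gW drain join 0 ω t)) ∂(PP lam0) with hI
  have hIne : I ≠ ⊤ := ne_top_of_le_ne_top ENNReal.one_ne_top (le_trans le_self_add ht)
  have h2 := ENNReal.toReal_mono ENNReal.one_ne_top ht
  rw [ENNReal.toReal_add hIne ENNReal.ofReal_ne_top, ENNReal.toReal_ofReal qq_pos.le, ENNReal.toReal_one] at h2
  show I.toReal ≤ 1 - qq
  linarith

/-- the event form: with probability at least `qq` all workloads exceed `k` -/
theorem escape_event0 (k : ℝ) : ∀ᶠ t : ℝ in atTop,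
    ENNReal.ofReal qq ≤ (PP lam0) {ω | ∀ i, k < gW drain join 0 ω t i} := by
  have hp := isProbabilityMeasure_expMeasure lam0_pos
  filter_upwards [escape0 k] with t ht
  have hne : Q (1 / 2) 0 ≠ ⊤ := ne_top_of_le_ne_top ENNReal.one_ne_top Q0_le
  have h1 : ENNReal.ofReal (1 / 4) * Q (1 / 2) 0 = ENNReal.ofReal qq := by
    unfold qq
    rw [← ENNReal.ofReal_toReal hne, ← ENNReal.ofReal_mul (by norm_num), ENNReal.toReal_ofReal ENNReal.toReal_nonneg]
    congr 1; ring
  rw [h1] at ht
  have hms : MeasurableSet {ω : ℕ → ℝ × (Fin 3 × (ℝ × ℝ)) | ∀ i, k < gW drain join 0 ω t i} := by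
    have : {ω : ℕ → ℝ × (Fin 3 × (ℝ × ℝ)) | ∀ i, k < gW drain join 0 ω t i} =
        ⋂ i, {ω | k < gW drain join 0 ω t i} := by ext; simp
    rw [this]
    exact MeasurableSet.iInter (fun i => measurableSet_lt measurable_const
      ((measurable_pi_apply i).comp (measurable_gW' 0 t)))
  have h3 : (PP lam0) {ω | ∀ i, k < gW drain join 0 ω t i}ᶜ =
      ∫⁻ ω, ENNReal.ofReal (gk k (gW drain join 0 ω t)) ∂(PP lam0) := by
    rw [← lintegral_indicator_one hms.compl]
    apply lintegral_congr
    intro ω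
    by_cases h : ∃ i, gW drain join 0 ω t i ≤ k
    · rw [indicator_of_mem (by simpa using h)]
      unfold gk; rw [if_pos h]; simp
    · rw [indicator_of_notMem (by simpa using h)]
      unfold gk; rw [if_neg h]; simp
  rw [← h3] at ht
  have h4 := prob_add_prob_compl (μ := PP lam0) hms
  rw [← h4, add_comm ((PP lam0) {ω | ∀ i, k < gW drain join 0 ω t i})] at ht
  exact (ENNReal.add_le_add_iff_left (measure_ne_top _ _)).1 ht

theorem not_conv0 :
    ¬ ∃ π : Measure Load, IsProbabilityMeasure π ∧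
      ∀ g : Load →ᵇ ℝ, Tendsto (fun t : ℝ => ∫ ω, g (gW drain join 0 ω t) ∂(PP lam0)) atTop
        (𝓝 (∫ x, g x ∂π)) := by
  rintro ⟨π, hπ, hconv⟩
  have hp := isProbabilityMeasure_expMeasure lam0_pos
  have hq := qq_pos
  -- test functions
  have hcont : ∀ k : ℕ, Continuous (fun x : Load => max 0 (min 1 ((k:ℝ) + 1 - x 0))) := by
    intro k; fun_prop
  have hbdd : ∀ (k : ℕ) (x : Load), ‖max 0 (min 1 ((k:ℝ) + 1 - x 0))‖ ≤ 1 := by
    intro k x
    rw [Real.norm_eq_abs, abs_of_nonneg (le_max_left _ _)]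
    exact max_le (by norm_num) (min_le_left _ _)
  set g : ℕ → (Load →ᵇ ℝ) := fun k =>
    BoundedContinuousFunction.ofNormedAddCommGroup (fun x : Load => max 0 (min 1 ((k:ℝ) + 1 - x 0)))
      (hcont k) 1 (hbdd k) with hg
  have hgv : ∀ k x, g k x = max 0 (min 1 ((k:ℝ) + 1 - x 0)) := fun k x => rfl
  have hle : ∀ k, ∫ x, g k x ∂π ≤ 1 - qq := by
    intro k
    apply le_of_tendsto (hconv (g k))
    filter_upwards [escape_real0 ((k:ℝ) + 1)] with t ht
    refine le_trans ?_ ht
    have hint : Integrable (fun ω => gk ((k:ℝ) + 1) (gW drain join 0 ω t)) (PP lam0) := by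
      apply Integrable.of_bound ((measurable_gk _).comp (measurable_gW' 0 t)).aestronglyMeasurable 1
      apply Eventually.of_forall
      intro ω
      show ‖gk ((k:ℝ) + 1) (gW drain join 0 ω t)‖ ≤ 1
      rw [Real.norm_eq_abs, abs_of_nonneg (gk_nonneg _ _)]
      exact gk_le _ _
    apply integral_mono_of_nonneg (Eventually.of_forall (fun ω => by
      show 0 ≤ g k (gW drain join 0 ω t); rw [hgv]; exact le_max_left _ _)) hint
    apply Eventually.of_forall
    intro ω
    show g k (gW drain join 0 ω t) ≤ gk ((k:ℝ) + 1) (gW drain join 0 ω t)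
    rw [hgv]
    by_cases h : ∃ i, gW drain join 0 ω t i ≤ (k:ℝ) + 1
    · unfold gk; rw [if_pos h]
      exact max_le (by norm_num) (min_le_left _ _)
    · unfold gk; rw [if_neg h]
      push Not at h
      exact max_le le_rfl ((min_le_right _ _).trans (by linarith [h 0]))
  -- mass of the sets {x 0 ≤ k}
  have hmono : Monotone (fun k : ℕ => {x : Load | x 0 ≤ (k:ℝ)}) := by
    intro a b hab x hx
    have : (a:ℝ) ≤ b := by exact_mod_cast hab
    exact le_trans hx this
  have hun : (⋃ k : ℕ, {x : Load | x 0 ≤ (k:ℝ)}) = univ := by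
    ext x
    simp only [mem_iUnion, mem_univ, iff_true]
    exact exists_nat_ge (x 0)
  have hlim := tendsto_measure_iUnion_atTop (μ := π) hmono
  rw [hun, measure_univ] at hlim
  have hev : ∀ᶠ k : ℕ in atTop, ENNReal.ofReal (1 - qq) < π {x : Load | x 0 ≤ (k:ℝ)} :=
    hlim.eventually_const_lt (by
      rw [ENNReal.ofReal_lt_one]; linarith)
  obtain ⟨k, hk⟩ := hev.exists
  have hms : MeasurableSet {x : Load | x 0 ≤ (k:ℝ)} := measurableSet_le (measurable_pi_apply 0) measurable_const
  have h6 : (π {x : Load | x 0 ≤ (k:ℝ)}).toReal ≤ ∫ x, g k x ∂π := by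
    calc (π {x : Load | x 0 ≤ (k:ℝ)}).toReal = ∫ x, {x : Load | x 0 ≤ (k:ℝ)}.indicator (fun _ => (1:ℝ)) x ∂π := by
          rw [integral_indicator hms]; simp [measureReal_def]
      _ ≤ _ := by
          apply integral_mono_of_nonneg
          · apply Eventually.of_forall
            intro x
            exact indicator_nonneg (fun _ _ => zero_le_one) x
          · exact (g k).integrable _
          · apply Eventually.of_forall
            intro x
            show {x : Load | x 0 ≤ (k:ℝ)}.indicator (fun _ => (1:ℝ)) x ≤ g k x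
            rw [hgv]
            by_cases h : x 0 ≤ (k:ℝ)
            · rw [indicator_of_mem (show x ∈ {x : Load | x 0 ≤ (k:ℝ)} from h)]
              rw [min_eq_left (by linarith)]
              exact le_max_right _ _
            · rw [indicator_of_notMem (show x ∉ {x : Load | x 0 ≤ (k:ℝ)} from h)]
              exact le_max_left _ _
  have h7 : 1 - qq < (π {x : Load | x 0 ≤ (k:ℝ)}).toReal := by
    exact (ENNReal.ofReal_lt_iff_lt_toReal ((ENNReal.toReal_nonneg).trans (h6.trans (hle k)))
      (measure_ne_top _ _)).1 hk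
  linarith [hle k]

end Pool.Agent.H946R3.TriA
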