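import Pool.Agent.H946R3.Tri.AH
open MeasureTheory ProbabilityTheory Topology Set
open Filter hiding join
open scoped ENNReal NNReal BoundedContinuousFunction

set_option linter.unusedSectionVars false
namespace Pool.Agent.H946R3.TriA
open Pool.Agent.Helper52.Tri

/-- target set: lattice states of the bad class with a large potential -/
def Gd : Set Load := {W | Lat1 W ∧ 1000000 ≤ U5 W}

theorem measurableSet_Gd : MeasurableSet Gd := by
  have hW : ∀ i : Fin 3, Measurable (fun W : Load => W i) := fun i => measurable_pi_apply i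
  have h1 : MeasurableSet {W : Load | ∀ M : Fin 3, Int.fract (W M - W (M + 1)) < Int.fract (W M - W (M + 2))} := by
    have : {W : Load | ∀ M : Fin 3, Int.fract (W M - W (M + 1)) < Int.fract (W M - W (M + 2))} =
        ⋂ M : Fin 3, {W : Load | Int.fract (W M - W (M + 1)) < Int.fract (W M - W (M + 2))} := by
      ext; simp
    rw [this]
    exact MeasurableSet.iInter fun M => measurableSet_lt (measurable_fract.comp ((hW _).sub (hW _)))
      (measurable_fract.comp ((hW _).sub (hW _)))
  have hN : ∀ i j : Fin 3, MeasurableSet {W : Load | NI (W i - W j)} := by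
    intro i j
    have : {W : Load | NI (W i - W j)} = ⋂ n : ℤ, {W : Load | W i - W j = (n:ℝ)}ᶜ := by
      ext; simp [NI]
    rw [this]
    exact MeasurableSet.iInter fun n => (measurableSet_eq_fun ((hW _).sub (hW _)) measurable_const).compl
  have h2 : MeasurableSet {W : Load | ∀ i j, i ≠ j → NI (W i - W j)} := by
    have : {W : Load | ∀ i j, i ≠ j → NI (W i - W j)} =
        ⋂ i : Fin 3, ⋂ j : Fin 3, ⋂ _ : i ≠ j, {W : Load | NI (W i - W j)} := by
      ext; simp
    rw [this]
    exact MeasurableSet.iInter fun i => MeasurableSet.iInter fun j => MeasurableSet.iInter fun _ => hN i j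
  have h3 : MeasurableSet {W : Load | ∀ i, ∃ j, j ≠ i ∧ W i - 2 ≤ W j} := by
    have : {W : Load | ∀ i, ∃ j, j ≠ i ∧ W i - 2 ≤ W j} =
        ⋂ i : Fin 3, ⋃ j : Fin 3, ⋃ _ : j ≠ i, {W : Load | W i - 2 ≤ W j} := by
      ext; simp
    rw [this]
    exact MeasurableSet.iInter fun i => MeasurableSet.iUnion fun j => MeasurableSet.iUnion fun _ =>
      measurableSet_le ((hW _).sub_const 2) (hW _)
  have h4 : MeasurableSet {W : Load | (1000000:ℝ) ≤ U5 W} := measurableSet_le measurable_const measurable_U5
  exact (h1.inter (h2.inter h3)).inter h4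

noncomputable def gg : Load → ℝ≥0∞ := Gd.indicator 1

theorem measurable_gg : Measurable gg := measurable_one.indicator measurableSet_Gd

noncomputable def Q (t : ℝ) (x : Load) : ℝ≥0∞ := Us (kap lam0) drain join gg t x

theorem measurable_Q : Measurable (fun p : ℝ × Load => Q p.1 p.2) := by
  have hp := isProbabilityMeasure_expMeasure lam0_pos
  exact measurable_Us (kap lam0) measurable_drain measurable_join measurable_gg

theorem Q_eq {t : ℝ} (ht : 0 ≤ t) (x : Load) :
    Q t x = ENNReal.ofReal (Real.exp (-(lam0 * t))) * gg (drain x t) +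
      ∫⁻ s in Ioc (0:ℝ) t, ENNReal.ofReal (lam0 * Real.exp (-(lam0 * s))) *
        ((∑ c, Q (t - s) (J c (drain x s))) * 3⁻¹) := by
  have hp := isProbabilityMeasure_expMeasure lam0_pos
  have hm : Measurable (fun z : ℝ × (Fin 3 × (ℝ × ℝ)) => Q (t - z.1) (join (drain x z.1) z.2)) := by
    have h1 : Measurable (fun z : ℝ × (Fin 3 × (ℝ × ℝ)) => ((t - z.1, join (drain x z.1) z.2) : ℝ × Load)) := by
      refine (measurable_const.sub measurable_fst).prodMk ?_
      exact measurable_join.comp ((measurable_drain.comp (measurable_const.prodMk measurable_fst)).prodMk measurable_snd)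
    exact measurable_Q.comp h1
  have h1 := Us_fix (kap lam0) measurable_drain measurable_join measurable_gg t x
  have h2 := T_eq (μK := mu12) lam0_pos ht (gg (drain x t)) hm
  unfold Q at h2 ⊢
  rw [h1, h2]
  congr 1
  apply lintegral_congr
  intro s
  congr 1
  exact lint_mu12 (hm.comp (measurable_const.prodMk measurable_id) :
    Measurable (fun k : Fin 3 × (ℝ × ℝ) => Q (t - s) (join (drain x s) k)))

theorem pos_zero {t : ℝ} {x : Load} (ht : 0 ≤ t) (h : drain x t ∈ Gd) : 0 < Q t x := by
  rw [Q_eq ht]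
  refine lt_of_lt_of_le ?_ le_self_add
  have : gg (drain x t) = 1 := by unfold gg; rw [indicator_of_mem h]; rfl
  rw [this, mul_one]
  exact ENNReal.ofReal_pos.2 (Real.exp_pos _)

theorem pos_step {t b : ℝ} {x : Load} (c : Fin 3) (hb : 0 < b) (hbt : b ≤ t)
    (h : ∀ s ∈ Ioo 0 b, 0 < Q (t - s) (J c (drain x s))) : 0 < Q t x := by
  rw [Q_eq (by linarith)]
  refine lt_of_lt_of_le ?_ le_add_self
  have hm : Measurable (fun s : ℝ => ENNReal.ofReal (lam0 * Real.exp (-(lam0 * s))) *
        ((∑ c, Q (t - s) (J c (drain x s))) * 3⁻¹)) := by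
    apply Measurable.mul (by fun_prop)
    apply Measurable.mul_const
    apply Finset.measurable_sum
    intro c _
    have h1 : Measurable (fun s : ℝ => ((t - s, J c (drain x s)) : ℝ × Load)) := by
      refine (measurable_const.sub measurable_id).prodMk ?_
      exact measurable_join.comp ((measurable_drain.comp (measurable_const.prodMk measurable_id)).prodMk
        measurable_const)
    exact measurable_Q.comp h1
  rw [setLIntegral_pos_iff hm]
  have hsub : Ioo 0 b ⊆ Function.support (fun s : ℝ => ENNReal.ofReal (lam0 * Real.exp (-(lam0 * s))) *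
        ((∑ c, Q (t - s) (J c (drain x s))) * 3⁻¹)) ∩ Ioc 0 t := by
    intro s hs
    refine ⟨?_, hs.1, by linarith [hs.2]⟩
    rw [Function.mem_support]
    apply mul_ne_zero
    · have := lam0_pos
      exact (ENNReal.ofReal_pos.2 (by positivity)).ne'
    · apply mul_ne_zero
      · have h1 : Q (t - s) (J c (drain x s)) ≤ ∑ c, Q (t - s) (J c (drain x s)) :=
          Finset.single_le_sum (f := fun c => Q (t - s) (J c (drain x s))) (fun _ _ => zero_le) (Finset.mem_univ c)
        exact (lt_of_lt_of_le (h s hs) h1).ne'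
      · simp
  refine lt_of_lt_of_le ?_ (measure_mono hsub)
  rw [Real.volume_Ioo]
  exact ENNReal.ofReal_pos.2 (by linarith)

theorem J_drain {W : Load} {s : ℝ} (h : ∀ i, s ≤ W i) (c : Fin 3) : J c (drain W s) = drain (J c W) s := by
  have h1 : ∀ i, s ≤ J c W i := by
    intro i
    have : W i ≤ J c W i := by
      unfold J join
      dsimp only
      split_ifs
      · by_cases hi : i = c
        · subst hi; rw [Function.update_self]; linarith
        · rw [Function.update_of_ne hi]
      · by_cases hi : i = c + 1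
        · subst hi; rw [Function.update_self]; linarith
        · rw [Function.update_of_ne hi]
    linarith [h i]
  rw [drain_eq_sub h, drain_eq_sub h1]
  unfold J join
  dsimp only
  have e : (W c - s < W (c + 1) - s) ↔ (W c < W (c + 1)) := by
    constructor <;> intro h <;> linarith
  simp only [e]
  split_ifs
  · funext i
    by_cases hi : i = c
    · subst hi; rw [Function.update_self, Function.update_self]; ring
    · rw [Function.update_of_ne hi, Function.update_of_ne hi]
  · funext i
    by_cases hi : i = c + 1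
    · subst hi; rw [Function.update_self, Function.update_self]; ring
    · rw [Function.update_of_ne hi, Function.update_of_ne hi]

theorem le_J {W : Load} (c i : Fin 3) : W i ≤ J c W i := by
  unfold J join
  dsimp only
  split_ifs
  · by_cases hi : i = c
    · subst hi; rw [Function.update_self]; linarith
    · rw [Function.update_of_ne hi]
  · by_cases hi : i = c + 1
    · subst hi; rw [Function.update_self]; linarith
    · rw [Function.update_of_ne hi]

theorem climb {W : Load} (hW : Lat1 W) : ∃ c, U5 W + 1 ≤ U5 (J c W) := by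
  by_contra hcon
  push Not at hcon
  have h1 := U5_drift hW
  have h2 : ∑ c, U5 (J c W) ≤ ∑ _c : Fin 3, (U5 W + 1) := Finset.sum_le_sum (fun c _ => (hcon c).le)
  simp only [Finset.sum_const, Finset.card_univ, Fintype.card_fin, nsmul_eq_mul] at h2
  push_cast at h2
  linarith

theorem pos_lat (n : ℕ) : ∀ (t : ℝ) (x : Load), 0 < t → Lat1 x → (∀ i, t < x i) →
    1000000 + 3 * t - U5 x ≤ n → 0 < Q t x := by
  induction n with
  | zero =>
    intro t x ht hx hlt hU
    push_cast at hU
    apply pos_zero ht.le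
    obtain ⟨h1, h2⟩ := Lat1_sub hx (s := t) (fun i => (hlt i).le)
    exact ⟨h1, by rw [h2]; linarith⟩
  | succ n ih =>
    intro t x ht hx hlt hU
    obtain ⟨c, hc⟩ := climb hx
    apply pos_step c ht le_rfl
    intro s hs
    have hs1 : ∀ i, s ≤ x i := fun i => by linarith [hlt i, hs.2]
    have hs2 : ∀ i, s ≤ J c x i := fun i => (hs1 i).trans (le_J c i)
    rw [J_drain hs1]
    obtain ⟨h1, h2⟩ := Lat1_sub (Lat1_J hx c) hs2
    apply ih (t - s) _ (by linarith [hs.2]) h1
    · intro i
      rw [drain_eq_sub hs2]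
      have := le_J (W := x) c i
      linarith [hlt i]
    · rw [h2]
      push_cast at hU
      linarith

theorem pos_lat' {t : ℝ} {x : Load} (ht : 0 < t) (hx : Lat1 x) (hlt : ∀ i, t < x i) : 0 < Q t x := by
  obtain ⟨n, hn⟩ := exists_nat_ge (1000000 + 3 * t - U5 x)
  exact pos_lat n t x ht hx hlt hn

/-- the three first arrivals produce the bad cyclic order -/
theorem Lat1_start {a b : ℝ} (ha : 0 < a) (hb : 0 < b) (hab : a + b < 1) :
    Lat1 ![2, 2 - b, 2 - b - a] := by
  have key : ∀ (u : ℝ) (n : ℤ), (n:ℝ) < u → u < n + 1 → NI u ∧ Int.fract u = u - n := by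
    intro u n h1 h2
    constructor
    · intro m hm
      rw [hm] at h1 h2
      have h3 : n < m := by exact_mod_cast h1
      have h4 : m < n + 1 := by exact_mod_cast h2
      omega
    · have : ⌊u⌋ = n := by
        rw [Int.floor_eq_iff]; exact ⟨h1.le, h2⟩
      unfold Int.fract
      rw [this]
  have e01 := key b 0 (by push_cast; linarith) (by push_cast; linarith)
  have e02 := key (b + a) 0 (by push_cast; linarith) (by push_cast; linarith)
  have e12 := key a 0 (by push_cast; linarith) (by push_cast; linarith)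
  have e10 := key (-b) (-1) (by push_cast; linarith) (by push_cast; linarith)
  have e20 := key (-b - a) (-1) (by push_cast; linarith) (by push_cast; linarith)
  have e21 := key (-a) (-1) (by push_cast; linarith) (by push_cast; linarith)
  have v0 : (![2, 2 - b, 2 - b - a] : Load) 0 = 2 := rfl
  have v1 : (![2, 2 - b, 2 - b - a] : Load) 1 = 2 - b := rfl
  have v2 : (![2, 2 - b, 2 - b - a] : Load) 2 = 2 - b - a := rfl
  have d01 : (2:ℝ) - (2 - b) = b := by ring
  have d02 : (2:ℝ) - (2 - b - a) = b + a := by ring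
  have d12 : (2 - b:ℝ) - (2 - b - a) = a := by ring
  have d10 : (2 - b:ℝ) - 2 = -b := by ring
  have d20 : (2 - b - a:ℝ) - 2 = -b - a := by ring
  have d21 : (2 - b - a:ℝ) - (2 - b) = -a := by ring
  refine ⟨?_, ?_, ?_⟩
  · intro M
    fin_cases M
    · show Int.fract ((![2, 2 - b, 2 - b - a] : Load) 0 - (![2, 2 - b, 2 - b - a] : Load) 1) <
        Int.fract ((![2, 2 - b, 2 - b - a] : Load) 0 - (![2, 2 - b, 2 - b - a] : Load) 2)
      rw [v0, v1, v2, d01, d02, e01.2, e02.2]; push_cast; linarith
    · show Int.fract ((![2, 2 - b, 2 - b - a] : Load) 1 - (![2, 2 - b, 2 - b - a] : Load) 2) <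
        Int.fract ((![2, 2 - b, 2 - b - a] : Load) 1 - (![2, 2 - b, 2 - b - a] : Load) 0)
      rw [v0, v1, v2, d12, d10, e12.2, e10.2]; push_cast; linarith
    · show Int.fract ((![2, 2 - b, 2 - b - a] : Load) 2 - (![2, 2 - b, 2 - b - a] : Load) 0) <
        Int.fract ((![2, 2 - b, 2 - b - a] : Load) 2 - (![2, 2 - b, 2 - b - a] : Load) 1)
      rw [v0, v1, v2, d20, d21, e20.2, e21.2]; push_cast; linarith
  · intro i j hij
    fin_cases i <;> fin_cases j <;> first | (exact absurd rfl hij) | skip
    · show NI ((![2, 2 - b, 2 - b - a] : Load) 0 - (![2, 2 - b, 2 - b - a] : Load) 1)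
      rw [v0, v1, d01]; exact e01.1
    · show NI ((![2, 2 - b, 2 - b - a] : Load) 0 - (![2, 2 - b, 2 - b - a] : Load) 2)
      rw [v0, v2, d02]; exact e02.1
    · show NI ((![2, 2 - b, 2 - b - a] : Load) 1 - (![2, 2 - b, 2 - b - a] : Load) 0)
      rw [v0, v1, d10]; exact e10.1
    · show NI ((![2, 2 - b, 2 - b - a] : Load) 1 - (![2, 2 - b, 2 - b - a] : Load) 2)
      rw [v2, v1, d12]; exact e12.1
    · show NI ((![2, 2 - b, 2 - b - a] : Load) 2 - (![2, 2 - b, 2 - b - a] : Load) 0)
      rw [v0, v2, d20]; exact e20.1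
    · show NI ((![2, 2 - b, 2 - b - a] : Load) 2 - (![2, 2 - b, 2 - b - a] : Load) 1)
      rw [v2, v1, d21]; exact e21.1
  · intro i
    fin_cases i
    · refine ⟨1, by decide, ?_⟩
      show (![2, 2 - b, 2 - b - a] : Load) 0 - 2 ≤ (![2, 2 - b, 2 - b - a] : Load) 1
      rw [v0, v1]; linarith
    · refine ⟨0, by decide, ?_⟩
      show (![2, 2 - b, 2 - b - a] : Load) 1 - 2 ≤ (![2, 2 - b, 2 - b - a] : Load) 0
      rw [v0, v1]; linarith
    · refine ⟨0, by decide, ?_⟩
      show (![2, 2 - b, 2 - b - a] : Load) 2 - 2 ≤ (![2, 2 - b, 2 - b - a] : Load) 0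
      rw [v0, v2]; linarith

theorem start1 {s : ℝ} (hs : 0 ≤ s) : J 1 (drain 0 s) = ![0, 0, 2] := by
  have h0 : drain (0 : Load) s = 0 := by
    funext i; unfold drain; simp only [Pi.zero_apply]; exact max_eq_right (by linarith)
  rw [h0]
  unfold J join
  dsimp only
  rw [if_neg (by simp)]
  funext i
  fin_cases i <;> simp [Function.update]

theorem start2 {s : ℝ} (hs : 0 < s) (hs1 : s < 1) : J 0 (drain ![0, 0, 2] s) = ![0, 2, 2 - s] := by
  have h0 : drain (![0, 0, 2] : Load) s = ![0, 0, 2 - s] := by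
    funext i; unfold drain
    fin_cases i
    · exact max_eq_right (by show (0:ℝ) - s ≤ 0; linarith)
    · exact max_eq_right (by show (0:ℝ) - s ≤ 0; linarith)
    · exact max_eq_left (by show (0:ℝ) ≤ 2 - s; linarith)
  rw [h0]
  unfold J join
  dsimp only
  rw [if_neg (by simp)]
  funext i
  fin_cases i <;> simp [Function.update]

theorem start3 {a s : ℝ} (ha : 0 < a) (hs : 0 < s) (hs1 : a + s < 1) :
    J 2 (drain ![0, 2, 2 - a] s) = ![2, 2 - s, 2 - s - a] := by
  have h0 : drain (![0, 2, 2 - a] : Load) s = ![0, 2 - s, 2 - s - a] := by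
    funext i; unfold drain
    fin_cases i
    · exact max_eq_right (by show (0:ℝ) - s ≤ 0; linarith)
    · exact max_eq_left (by show (0:ℝ) ≤ 2 - s; linarith)
    · show max (2 - a - s) 0 = 2 - s - a
      rw [max_eq_left (by linarith)]; ring
  rw [h0]
  unfold J join
  dsimp only
  have e : (2 : Fin 3) + 1 = 0 := rfl
  rw [e]
  rw [if_neg (by
    show ¬ ((2 - s - a : ℝ) < 0)
    linarith)]
  funext i
  fin_cases i <;> simp [Function.update]

theorem Q0_pos : 0 < Q (1 / 2) 0 := by
  apply pos_step 1 (b := 1 / 8) (by norm_num) (by norm_num)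
  intro s1 hs1
  rw [start1 hs1.1.le]
  apply pos_step 0 (b := 1 / 8) (by norm_num) (by linarith [hs1.2])
  intro s2 hs2
  rw [start2 hs2.1 (by linarith [hs2.2])]
  apply pos_step 2 (b := 1 / 8) (by norm_num) (by linarith [hs1.2, hs2.2])
  intro s3 hs3
  rw [start3 hs2.1 hs3.1 (by linarith [hs2.2, hs3.2])]
  apply pos_lat' (by linarith [hs1.2, hs2.2, hs3.2]) (Lat1_start hs2.1 hs3.1 (by linarith [hs2.2, hs3.2]))
  intro i
  fin_cases i
  · show 1 / 2 - s1 - s2 - s3 < (2:ℝ)
    linarith [hs1.1, hs2.1, hs3.1]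
  · show 1 / 2 - s1 - s2 - s3 < (2:ℝ) - s3
    linarith [hs1.1, hs2.1, hs3.1]
  · show 1 / 2 - s1 - s2 - s3 < (2:ℝ) - s3 - s2
    linarith [hs1.1, hs2.1, hs3.1]

end Pool.Agent.H946R3.TriA
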