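import Pool.Agent.H946R3.Tri.BStab
open MeasureTheory ProbabilityTheory Topology Set
open Filter hiding join
open scoped ENNReal NNReal

set_option linter.unusedSectionVars false
namespace Pool.Agent.H946R3.TriB
open Pool.Agent.Helper52.Tri

/-- law of the right service times: `1` or `3` with probability `1/2` each -/
noncomputable def FB : Measure ℝ := (2:ℝ≥0∞)⁻¹ • Measure.dirac 1 + (2:ℝ≥0∞)⁻¹ • Measure.dirac 3

instance : IsProbabilityMeasure FB := by
  refine ⟨?_⟩
  unfold FB
  simp [ENNReal.inv_two_add_inv_two]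

noncomputable abbrev mu12 : Measure (Fin 3 × (ℝ × ℝ)) := markLaw (Measure.dirac 1) FB

theorem lint_mu12 {f : Fin 3 × (ℝ × ℝ) → ℝ≥0∞} (hf : Measurable f) :
    ∫⁻ k, f k ∂mu12 = (∑ c, f (c, (1, 1)) + ∑ c, f (c, (1, 3))) * 6⁻¹ := by
  unfold mu12 markLaw
  rw [lintegral_prod _ hf.aemeasurable]
  have h1 : ∀ c : Fin 3, ∫⁻ q, f (c, q) ∂((Measure.dirac (1:ℝ)).prod FB) =
      (f (c, (1, 1)) + f (c, (1, 3))) * 2⁻¹ := by
    intro c
    have hm : Measurable (fun q : ℝ × ℝ => f (c, q)) := hf.comp (measurable_const.prodMk measurable_id)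
    have hm2 : Measurable (fun r : ℝ => f (c, (1, r))) := hm.comp (measurable_const.prodMk measurable_id)
    rw [lintegral_prod _ hm.aemeasurable, lintegral_dirac' _ hm.lintegral_prod_right']
    unfold FB
    rw [lintegral_add_measure, lintegral_smul_measure, lintegral_smul_measure, lintegral_dirac' _ hm2,
      lintegral_dirac' _ hm2]
    simp only [smul_eq_mul]
    ring
  simp only [h1]
  rw [lintegral_fintype]
  have h2 : ∀ c : Fin 3, (PMF.uniformOfFintype (Fin 3)).toMeasure {c} = 3⁻¹ := by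
    intro c
    rw [PMF.toMeasure_apply_singleton _ _ (measurableSet_singleton c), PMF.uniformOfFintype_apply]
    simp
  simp only [h2]
  rw [← Finset.sum_add_distrib, Finset.sum_mul]
  apply Finset.sum_congr rfl
  intro c _
  rw [mul_assoc]
  congr 1
  rw [← ENNReal.mul_inv (by norm_num) (by norm_num)]
  norm_num

theorem lint_mu12_ofReal {f : Fin 3 × (ℝ × ℝ) → ℝ} (hf : Measurable f)
    (h0 : ∀ r : ℝ, (r = 1 ∨ r = 3) → ∀ c, 0 ≤ f (c, (1, r))) :
    ∫⁻ k, ENNReal.ofReal (f k) ∂mu12 = ENNReal.ofReal ((∑ c, f (c, (1, 1)) + ∑ c, f (c, (1, 3))) / 6) := by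
  rw [lint_mu12 hf.ennreal_ofReal, ← ENNReal.ofReal_sum_of_nonneg (fun c _ => h0 1 (Or.inl rfl) c),
    ← ENNReal.ofReal_sum_of_nonneg (fun c _ => h0 3 (Or.inr rfl) c),
    ← ENNReal.ofReal_add (Finset.sum_nonneg (fun c _ => h0 1 (Or.inl rfl) c))
      (Finset.sum_nonneg (fun c _ => h0 3 (Or.inr rfl) c)),
    ENNReal.ofReal_div_of_pos (by norm_num), div_eq_mul_inv]
  congr 2
  simp

theorem ae_mu12 : ∀ᵐ k ∂mu12, k.2 = (1, 1) ∨ k.2 = (1, 3) := by
  have hm : MeasurableSet {k : Fin 3 × (ℝ × ℝ) | ¬ (k.2 = (1, 1) ∨ k.2 = (1, 3))} :=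
    ((measurable_snd (measurableSet_singleton _)).union (measurable_snd (measurableSet_singleton _))).compl
  rw [ae_iff, ← lintegral_indicator_one hm, lint_mu12 (measurable_one.indicator hm)]
  simp

theorem measurable_UU : Measurable (fun p : ℝ × ℝ × ℝ => UU p.1 p.2.1 p.2.2) := by
  unfold UU
  have hx : Measurable (fun p : ℝ × ℝ × ℝ => p.2.1) := measurable_fst.comp measurable_snd
  have hy : Measurable (fun p : ℝ × ℝ × ℝ => p.2.2) := measurable_snd.comp measurable_snd
  apply Measurable.ite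
  · exact (measurableSet_lt hx measurable_const).inter (measurableSet_lt hy measurable_const)
  · have h3 : Measurable (fun q : ℤ × ℤ × ℤ => (tab q.1 q.2.1 q.2.2 : ℝ)) := measurable_of_countable _
    have h4 : Measurable (fun p : ℝ × ℝ × ℝ => ((⌊p.2.1⌋, ⌊p.2.2⌋, ⌊p.2.2 - p.2.1⌋) : ℤ × ℤ × ℤ)) :=
      (Int.measurable_floor.comp hx).prodMk ((Int.measurable_floor.comp hy).prodMk
        (Int.measurable_floor.comp (hy.sub hx)))
    have h5 := h3.comp h4
    exact (((measurable_const.mul measurable_fst).sub hx).sub hy).add (h5.div_const 1000)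
  · exact (measurable_const.mul measurable_fst).sub (measurable_const.mul (hx.min hy))

theorem measurable_U3 : Measurable U3 := by
  have hW : ∀ i : Fin 3, Measurable (fun W : Load => W i) := fun i => measurable_pi_apply i
  unfold U3
  apply Measurable.ite
  · exact (measurableSet_lt (hW 1) (hW 0)).inter (measurableSet_lt (hW 2) (hW 0))
  · exact measurable_UU.comp ((hW 0).prodMk (((hW 0).sub (hW 2)).prodMk ((hW 0).sub (hW 1))))
  · apply Measurable.ite
    · exact (measurableSet_lt (hW 2) (hW 1)).inter (measurableSet_lt (hW 0) (hW 1))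
    · exact measurable_UU.comp ((hW 1).prodMk (((hW 1).sub (hW 0)).prodMk ((hW 1).sub (hW 2))))
    · exact measurable_UU.comp ((hW 2).prodMk (((hW 2).sub (hW 1)).prodMk ((hW 2).sub (hW 0))))

theorem measurable_VV : Measurable VV := by
  unfold VV
  exact (measurable_U3.const_mul th).exp

noncomputable abbrev kap (lam : ℝ) : Measure (ℝ × (Fin 3 × (ℝ × ℝ))) := (expMeasure lam).prod mu12

theorem ae_generic {lam : ℝ} (hl : 0 < lam) (W : Load) :
    ∀ᵐ z ∂(kap lam), 0 < z.1 ∧ (z.2.2 = (1, 1) ∨ z.2.2 = (1, 3)) ∧ ∀ i, NI (W i - z.1) := by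
  have hp := isProbabilityMeasure_expMeasure hl
  have h1 : ∀ᵐ z ∂(kap lam), 0 < z.1 := ae_fst_pos hl
  have h2 : ∀ᵐ z ∂(kap lam), (z.2.2 = (1, 1) ∨ z.2.2 = (1, 3)) :=
    (Measure.quasiMeasurePreserving_snd (μ := expMeasure lam) (ν := mu12)).ae ae_mu12
  have h3 : ∀ᵐ s ∂(expMeasure lam), ∀ i, NI (W i - s) := by
    have hac : expMeasure lam ≪ volume := withDensity_absolutelyContinuous _ _
    apply hac.ae_le
    show ∀ᵐ s : ℝ, ∀ i, NI (W i - s)
    rw [ae_all_iff]
    intro i
    have : ∀ᵐ s : ℝ, ∀ n : ℤ, W i - s ≠ n := by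
      rw [ae_all_iff]
      intro n
      have : {s : ℝ | ¬ (W i - s ≠ n)} = {W i - n} := by
        ext s
        simp only [ne_eq, not_not, mem_ofPred_eq, mem_singleton_iff]
        constructor
        · intro h; linarith
        · intro h; linarith
      rw [ae_iff, this]; simp
    exact this
  have h4 : ∀ᵐ z ∂(kap lam), ∀ i, NI (W i - z.1) :=
    (Measure.quasiMeasurePreserving_fst (μ := expMeasure lam) (ν := mu12)).ae h3
  filter_upwards [h1, h2, h4] with z a b c
  exact ⟨a, b, c⟩

theorem Good_step {W : Load} (hW : Good W) {z : ℝ × (Fin 3 × (ℝ × ℝ))} (h1 : 0 < z.1) (h2 : z.2.2 = (1, 1) ∨ z.2.2 = (1, 3))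
    (h3 : ∀ i, NI (W i - z.1)) : Good (join (drain W z.1) z.2) := by
  obtain ⟨r, hr, hz⟩ : ∃ r : ℝ, (r = 1 ∨ r = 3) ∧ z.2 = (z.2.1, (1, r)) := by
    rcases h2 with h2 | h2
    · exact ⟨1, Or.inl rfl, by rw [← h2]⟩
    · exact ⟨3, Or.inr rfl, by rw [← h2]⟩
  rw [hz]
  apply Good_join hr (Good_drain hW h1.le)
  intro i hi
  unfold drain at hi ⊢
  rcases lt_max_iff.1 hi with h | h
  · rw [max_eq_left h.le]; exact h3 i
  · exact absurd h (lt_irrefl _)

theorem Good_ae {lam : ℝ} (hl : 0 < lam) {W : Load} (hW : Good W) :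
    ∀ᵐ z ∂(kap lam), Good (join (drain W z.1) z.2) := by
  filter_upwards [ae_generic hl W] with z hz
  exact Good_step hW hz.1 hz.2.1 hz.2.2

theorem th_pos : 0 < th := by unfold th; norm_num

noncomputable def aa : ℝ := 1522 / 1000 * th + 1024 * th ^ 2

theorem aa_pos : 0 < aa := by unfold aa; have := th_pos; positivity

theorem K1_pos : 0 < K1 := Real.exp_pos _

/-- supersolution for the moment bound -/
theorem moment_super {lam δ A : ℝ} (hl : 0 < lam) (hδ : 0 < δ) (h1 : lam * (1 + aa) ≤ lam + 3 * th - δ)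
    (hA : lam * K1 ≤ A * δ) (hδl : δ ≤ lam) {t : ℝ} (ht : 0 ≤ t) {W : Load} (hW : Good W) :
    ∫⁻ z, (if t < z.1 then ENNReal.ofReal (VV (drain W t)) else
      ENNReal.ofReal (Real.exp (-(δ * (t - z.1))) * VV (join (drain W z.1) z.2) +
        A * (2 - Real.exp (-(δ * (t - z.1)))))) ∂(kap lam) ≤
      ENNReal.ofReal (Real.exp (-(δ * t)) * VV W + A * (2 - Real.exp (-(δ * t)))) := by
  have hA0 : 0 < A := by
    have := mul_pos hl K1_pos
    by_contra hcon
    push Not at hcon
    nlinarith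
  have hAK : K1 ≤ A := by
    have h2 : lam * K1 ≤ A * lam := hA.trans (by gcongr)
    nlinarith
  set V := VV W with hV
  have hVp : 0 < V := VV_pos W
  set B : ℝ × (Fin 3 × (ℝ × ℝ)) → ℝ := fun z => Real.exp (-(δ * (t - z.1))) * VV (join (drain W z.1) z.2) +
        A * (2 - Real.exp (-(δ * (t - z.1)))) with hB
  have hBm : Measurable B := by
    have hj : Measurable (fun z : ℝ × (Fin 3 × (ℝ × ℝ)) => join (drain W z.1) z.2) :=
      measurable_join.comp ((measurable_drain.comp (measurable_const.prodMk measurable_fst)).prodMk measurable_snd)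
    have hv := measurable_VV.comp hj
    have he : Measurable (fun z : ℝ × (Fin 3 × (ℝ × ℝ)) => Real.exp (-(δ * (t - z.1)))) := by fun_prop
    exact (he.mul hv).add ((measurable_const.sub he).const_mul A)
  rw [T_eq hl ht _ hBm.ennreal_ofReal]
  -- inner integral
  set E : ℝ → ℝ := fun s => Real.exp (-(δ * (t - s))) with hE
  have hEle : ∀ s ∈ Ioc 0 t, E s ≤ 1 := by
    intro s hs
    apply Real.exp_le_one_iff.2
    have := mul_nonneg hδ.le (sub_nonneg.2 hs.2)
    linarith
  have hEpos : ∀ s, 0 < E s := fun s => Real.exp_pos _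
  have inner : ∀ s ∈ Ioc 0 t, (∫⁻ k, ENNReal.ofReal (B (s, k)) ∂mu12) ≤
      ENNReal.ofReal (E s * ((1 + aa) * (Real.exp (-(3 * th * s)) * V) + K1) + A * (2 - E s)) := by
    intro s hs
    have hBs : Measurable (fun k : Fin 3 × (ℝ × ℝ) => B (s, k)) := hBm.comp (measurable_const.prodMk measurable_id)
    rw [lint_mu12_ofReal hBs]
    · apply ENNReal.ofReal_le_ofReal
      have hj := VV_join hW hs.1.le
      have e : (∑ c, B (s, (c, (1, 1))) + ∑ c, B (s, (c, (1, 3)))) / 6 =
          E s * ((∑ c, VV (J 1 c (drain W s)) + ∑ c, VV (J 3 c (drain W s))) / 6) + A * (2 - E s) := by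
        simp only [hB, Fin.sum_univ_three, J, hE]; ring
      rw [e]
      have : E s * ((∑ c, VV (J 1 c (drain W s)) + ∑ c, VV (J 3 c (drain W s))) / 6) ≤
          E s * ((1 + aa) * (Real.exp (-(3 * th * s)) * V) + K1) :=
        mul_le_mul_of_nonneg_left hj (hEpos s).le
      linarith
    · intro r hr c
      have h2 := hEle s hs
      have h3 := mul_pos (hEpos s) (VV_pos (join (drain W s) (c, (1, r))))
      have h4 : 0 ≤ A * (2 - E s) := mul_nonneg hA0.le (by linarith)
      exact add_nonneg h3.le h4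
  -- the primitive
  set q : ℝ → ℝ := fun s => Real.exp (-(lam * s)) * ((lam + 3 * th - δ) * (E s * (Real.exp (-(3 * th * s)) * V)) +
    2 * A * lam - A * (lam - δ) * E s) with hq
  set P : ℝ → ℝ := fun s => Real.exp (-(lam * s)) * (E s * (Real.exp (-(3 * th * s)) * V) + 2 * A - A * E s) with hP
  have hderiv : ∀ s, HasDerivAt P (-q s) s := by
    intro s
    have d1 := hd1 lam s
    have d2 := hd1 (3 * th) s
    have d3 : HasDerivAt E (δ * E s) s := hd2 δ t s
    have d4 := d1.mul ((((d3.mul (d2.mul_const V)).add_const (2 * A)).sub (d3.const_mul A)))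
    refine (d4.congr_deriv ?_).congr_of_eventuallyEq (Eventually.of_forall fun r => ?_)
    · simp only [hq, Pi.mul_apply, Pi.sub_apply]; ring
    · simp only [hP, Pi.mul_apply, Pi.sub_apply]
  have hqc : Continuous q := by simp only [hq, hE]; fun_prop
  have hqle : ∀ s ∈ Ioc 0 t, lam * Real.exp (-(lam * s)) *
      (E s * ((1 + aa) * (Real.exp (-(3 * th * s)) * V) + K1) + A * (2 - E s)) ≤ q s := by
    intro s hs
    simp only [hq]
    have e1 : 0 < Real.exp (-(lam * s)) := Real.exp_pos _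
    have e2 : 0 < E s * (Real.exp (-(3 * th * s)) * V) := mul_pos (hEpos s) (mul_pos (Real.exp_pos _) hVp)
    have k1 : lam * (1 + aa) * (E s * (Real.exp (-(3 * th * s)) * V)) ≤
        (lam + 3 * th - δ) * (E s * (Real.exp (-(3 * th * s)) * V)) := by gcongr
    have k2 : lam * K1 * E s ≤ A * δ * E s := mul_le_mul_of_nonneg_right hA (hEpos s).le
    calc _ = Real.exp (-(lam * s)) * (lam * (1 + aa) * (E s * (Real.exp (-(3 * th * s)) * V)) + lam * K1 * E s
          + lam * (A * (2 - E s))) := by ring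
      _ ≤ Real.exp (-(lam * s)) * ((lam + 3 * th - δ) * (E s * (Real.exp (-(3 * th * s)) * V)) + A * δ * E s
          + lam * (A * (2 - E s))) := by gcongr
      _ = _ := by ring
  have hq0 : ∀ s ∈ Ioc 0 t, 0 ≤ q s := by
    intro s hs
    refine le_trans ?_ (hqle s hs)
    have h2 := hEle s hs
    have h4 : 0 ≤ A * (2 - E s) := mul_nonneg hA0.le (by linarith)
    have h5 : 0 ≤ E s * ((1 + aa) * (Real.exp (-(3 * th * s)) * V) + K1) := by
      have := aa_pos; have := K1_pos; have := hEpos s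
      positivity
    have := Real.exp_pos (-(lam * s))
    positivity
  have hint : ∫⁻ s in Ioc (0:ℝ) t, ENNReal.ofReal (lam * Real.exp (-(lam * s))) *
      ∫⁻ k, ENNReal.ofReal (B (s, k)) ∂mu12 ≤ ENNReal.ofReal (P 0 - P t) := by
    rw [← int_deriv ht hderiv hqc hq0]
    apply setLIntegral_mono (hqc.measurable.ennreal_ofReal)
    intro s hs
    calc _ ≤ ENNReal.ofReal (lam * Real.exp (-(lam * s))) * ENNReal.ofReal
          (E s * ((1 + aa) * (Real.exp (-(3 * th * s)) * V) + K1) + A * (2 - E s)) := by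
            gcongr; exact inner s hs
      _ = ENNReal.ofReal (lam * Real.exp (-(lam * s)) *
          (E s * ((1 + aa) * (Real.exp (-(3 * th * s)) * V) + K1) + A * (2 - E s))) := by
            rw [← ENNReal.ofReal_mul]
            have := Real.exp_pos (-(lam * s)); positivity
      _ ≤ _ := ENNReal.ofReal_le_ofReal (hqle s hs)
  have hPt : P t = Real.exp (-(lam * t)) * (Real.exp (-(3 * th * t)) * V + A) := by
    simp only [hP, hE, sub_self, mul_zero, neg_zero, Real.exp_zero]; ring
  have hP0 : P 0 = Real.exp (-(δ * t)) * V + A * (2 - Real.exp (-(δ * t))) := by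
    simp only [hP, hE, sub_zero, mul_zero, neg_zero, Real.exp_zero]; ring
  have hPle : 0 ≤ P 0 - P t := by
    have := int_deriv ht hderiv hqc hq0
    by_contra hcon
    push Not at hcon
    have hPt' : P 0 - P t = ∫ s in (0:ℝ)..t, q s := by
      have := intervalIntegral.integral_eq_sub_of_hasDerivAt (a := 0) (b := t) (f := P) (f' := fun s => -q s)
        (fun s _ => hderiv s) (hqc.intervalIntegrable _ _).neg
      rw [intervalIntegral.integral_neg] at this
      linarith
    rw [hPt'] at hcon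
    have : 0 ≤ ∫ s in (0:ℝ)..t, q s := by
      rw [intervalIntegral.integral_of_le ht]
      exact setIntegral_nonneg measurableSet_Ioc hq0
    linarith
  have hd := VV_drain hW ht
  calc _ ≤ ENNReal.ofReal (Real.exp (-(lam * t))) * ENNReal.ofReal (Real.exp (-(3 * th * t)) * V + A) +
        ENNReal.ofReal (P 0 - P t) := by
        gcongr
        linarith
    _ = ENNReal.ofReal (P t) + ENNReal.ofReal (P 0 - P t) := by
        rw [← ENNReal.ofReal_mul (Real.exp_pos _).le, hPt]
    _ = ENNReal.ofReal (P 0) := by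
        rw [← ENNReal.ofReal_add _ hPle]
        · congr 1; ring
        · rw [hPt]
          have := Real.exp_pos (-(lam * t))
          have := Real.exp_pos (-(3 * th * t))
          positivity
    _ = _ := by rw [hP0]

end Pool.Agent.H946R3.TriB
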