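import Pool.Agent.H946R3.Tri.BC
import Pool.Agent.Helper52.TriD
open MeasureTheory ProbabilityTheory Topology Set
open Filter hiding join
open scoped ENNReal NNReal

set_option linter.unusedSectionVars false
namespace Pool.Agent.H946R3.TriB
open Pool.Agent.Helper52.Tri

noncomputable def Phi (δ ε t : ℝ) (p : Load × Load) : ℝ :=
  2 * Real.exp (-(δ * t)) * (1 + ε * (VV p.1 + VV p.2)) * neq p

theorem Phi_nonneg {δ ε t : ℝ} (hε : 0 ≤ ε) (p : Load × Load) : 0 ≤ Phi δ ε t p := by
  unfold Phi
  have := VV_pos p.1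
  have := VV_pos p.2
  have := neq_nonneg p
  positivity

/-- supersolution for the coupled pair -/
theorem pair_super {lam δ ε : ℝ} (hl : 0 < lam) (hδ : 0 < δ) (hδl : δ < lam) (hε : 0 < ε)
    (h1 : lam * (1 + aa) ≤ lam + 3 * th - δ) {p : Load × Load} (hp1 : Good p.1) (hp2 : Good p.2)
    (H : ∃ m, 0 ≤ m ∧ (∀ i, p.1 i ≤ m) ∧ (∀ i, p.2 i ≤ m) ∧
      (lam * (1 + 2 * ε * K1) / (lam - δ) - 1 ≤ Real.exp (-(lam * m)) / 2 ∨
       lam * (1 + 2 * ε * K1) / (lam - δ) - 1 ≤
        ε * (1 - lam * (1 + aa) / (lam + 3 * th - δ)) * (VV p.1 + VV p.2))) {t : ℝ} (ht : 0 ≤ t) :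
    ∫⁻ z, (if t < z.1 then ENNReal.ofReal (neq (dr2 p t)) else
      ENNReal.ofReal (Phi δ ε (t - z.1) (jn2 (dr2 p z.1) z.2))) ∂(kap lam) ≤
      ENNReal.ofReal (Phi δ ε t p) := by
  set B : ℝ × (Fin 3 × (ℝ × ℝ)) → ℝ := fun z => Phi δ ε (t - z.1) (jn2 (dr2 p z.1) z.2) with hB
  have hBm : Measurable B := by
    have hj : Measurable (fun z : ℝ × (Fin 3 × (ℝ × ℝ)) => jn2 (dr2 p z.1) z.2) :=
      measurable_jn2.comp ((measurable_dr2.comp (measurable_const.prodMk measurable_fst)).prodMk measurable_snd)
    have hv1 := measurable_VV.comp (measurable_fst.comp hj)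
    have hv2 := measurable_VV.comp (measurable_snd.comp hj)
    have hn := measurable_neq.comp hj
    have he : Measurable (fun z : ℝ × (Fin 3 × (ℝ × ℝ)) => 2 * Real.exp (-(δ * (t - z.1)))) := by fun_prop
    exact (he.mul (((hv1.add hv2).const_mul ε).const_add 1)).mul hn
  rw [T_eq hl ht _ hBm.ennreal_ofReal]
  by_cases hpp : p.1 = p.2
  · have z1 : neq (dr2 p t) = 0 := by unfold neq dr2; rw [if_pos (by rw [hpp])]
    have z2 : ∀ s k, B (s, k) = 0 := by
      intro s k
      simp only [hB]
      unfold Phi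
      have : neq (jn2 (dr2 p s) k) = 0 := by
        unfold neq jn2 dr2; rw [if_pos (by rw [hpp])]
      rw [this, mul_zero]
    rw [z1]
    simp [z2]
  · obtain ⟨m, hm0, hm1, hm2, hη⟩ := H
    have hneq : neq p = 1 := by unfold neq; rw [if_neg hpp]
    set P2 := VV p.1 + VV p.2 with hP2
    have hP2pos : 0 < P2 := add_pos (VV_pos _) (VV_pos _)
    have hzero : ∀ s, m ≤ s → (dr2 p s).1 = (dr2 p s).2 := by
      intro s hs
      unfold dr2
      dsimp only
      rw [drain_zero_of_le hm1 hs, drain_zero_of_le hm2 hs]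
    set τ := min t m with hτ
    have hτ0 : 0 ≤ τ := le_min ht hm0
    have hK := K1_pos
    have haa := aa_pos
    have hth := th_pos
    -- bound of the integrand
    set q : ℝ → ℝ := fun s => 2 * Real.exp (-(δ * t)) * (lam * (1 + 2 * ε * K1) * Real.exp (-((lam - δ) * s)) +
      lam * (1 + aa) * ε * P2 * Real.exp (-((lam + 3 * th - δ) * s))) with hq
    have hq0 : ∀ s, 0 ≤ q s := by intro s; simp only [hq]; positivity
    have inner : ∀ s ∈ Ioc 0 t, ENNReal.ofReal (lam * Real.exp (-(lam * s))) *
        (∫⁻ k, ENNReal.ofReal (B (s, k)) ∂mu12) ≤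
        (Ioc 0 τ).indicator (fun s => ENNReal.ofReal (q s)) s := by
      intro s hs
      by_cases hsm : m ≤ s
      · have z2 : ∀ k, B (s, k) = 0 := by
          intro k
          simp only [hB]
          unfold Phi
          have : neq (jn2 (dr2 p s) k) = 0 := by
            unfold neq jn2; rw [if_pos (by rw [hzero s hsm])]
          rw [this, mul_zero]
        simp [z2]
      · push Not at hsm
        rw [indicator_of_mem (show s ∈ Ioc 0 τ from ⟨hs.1, le_min hs.2 hsm.le⟩)]
        have hBs : Measurable (fun k : Fin 3 × (ℝ × ℝ) => B (s, k)) :=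
          hBm.comp (measurable_const.prodMk measurable_id)
        rw [lint_mu12_ofReal hBs (fun r _ c => Phi_nonneg hε.le _), ← ENNReal.ofReal_mul (by positivity)]
        apply ENNReal.ofReal_le_ofReal
        have j1 := VV_join hp1 hs.1.le
        have j2 := VV_join hp2 hs.1.le
        have e : (∑ c, B (s, (c, (1, 1))) + ∑ c, B (s, (c, (1, 3)))) / 6 ≤ 2 * Real.exp (-(δ * (t - s))) *
            (1 + ε * ((∑ c, VV (J 1 c (drain p.1 s)) + ∑ c, VV (J 3 c (drain p.1 s))) / 6 +
              (∑ c, VV (J 1 c (drain p.2 s)) + ∑ c, VV (J 3 c (drain p.2 s))) / 6)) := by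
          have hb : ∀ r : ℝ, ∀ c, B (s, (c, (1, r))) ≤ 2 * Real.exp (-(δ * (t - s))) *
              (1 + ε * (VV (J r c (drain p.1 s)) + VV (J r c (drain p.2 s)))) := by
            intro r c
            simp only [hB]
            unfold Phi
            have h0 : 0 ≤ 2 * Real.exp (-(δ * (t - s))) *
              (1 + ε * (VV (J r c (drain p.1 s)) + VV (J r c (drain p.2 s)))) := by
              have := VV_pos (J r c (drain p.1 s))
              have := VV_pos (J r c (drain p.2 s))
              positivity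
            calc _ ≤ 2 * Real.exp (-(δ * (t - s))) *
              (1 + ε * (VV (J r c (drain p.1 s)) + VV (J r c (drain p.2 s)))) * 1 :=
                  mul_le_mul_of_nonneg_left (neq_le _) h0
              _ = _ := by ring
          calc _ ≤ (∑ c, 2 * Real.exp (-(δ * (t - s))) *
              (1 + ε * (VV (J 1 c (drain p.1 s)) + VV (J 1 c (drain p.2 s)))) +
              ∑ c, 2 * Real.exp (-(δ * (t - s))) *
              (1 + ε * (VV (J 3 c (drain p.1 s)) + VV (J 3 c (drain p.2 s))))) / 6 := by
                have q1 := Finset.sum_le_sum (s := Finset.univ) (fun c (_ : c ∈ Finset.univ) => hb 1 c)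
                have q2 := Finset.sum_le_sum (s := Finset.univ) (fun c (_ : c ∈ Finset.univ) => hb 3 c)
                linarith
            _ = _ := by simp only [Fin.sum_univ_three]; ring
        have e2 : (∑ c, VV (J 1 c (drain p.1 s)) + ∑ c, VV (J 3 c (drain p.1 s))) / 6 +
            (∑ c, VV (J 1 c (drain p.2 s)) + ∑ c, VV (J 3 c (drain p.2 s))) / 6 ≤
            (1 + aa) * (Real.exp (-(3 * th * s)) * P2) + 2 * K1 := by
          have : (1 + (1522 / 1000 * th + 1024 * th ^ 2)) = 1 + aa := rfl
          rw [this] at j1 j2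
          rw [hP2]; linarith
        have hE : Real.exp (-(lam * s)) * Real.exp (-(δ * (t - s))) =
            Real.exp (-(δ * t)) * Real.exp (-((lam - δ) * s)) := by
          rw [← Real.exp_add, ← Real.exp_add]; congr 1; ring
        have hE2 : Real.exp (-((lam - δ) * s)) * Real.exp (-(3 * th * s)) =
            Real.exp (-((lam + 3 * th - δ) * s)) := by
          rw [← Real.exp_add]; congr 1; ring
        calc lam * Real.exp (-(lam * s)) * ((∑ c, B (s, (c, (1, 1))) + ∑ c, B (s, (c, (1, 3)))) / 6)
            ≤ lam * Real.exp (-(lam * s)) * (2 * Real.exp (-(δ * (t - s))) *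
              (1 + ε * ((1 + aa) * (Real.exp (-(3 * th * s)) * P2) + 2 * K1))) := by
              apply mul_le_mul_of_nonneg_left _ (by positivity)
              refine e.trans ?_
              gcongr
          _ = 2 * lam * (Real.exp (-(lam * s)) * Real.exp (-(δ * (t - s)))) *
              (1 + 2 * ε * K1 + ε * (1 + aa) * P2 * Real.exp (-(3 * th * s))) := by ring
          _ = 2 * lam * Real.exp (-(δ * t)) * ((1 + 2 * ε * K1) * Real.exp (-((lam - δ) * s)) +
              ε * (1 + aa) * P2 * (Real.exp (-((lam - δ) * s)) * Real.exp (-(3 * th * s)))) := by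
              rw [hE]; ring
          _ = q s := by rw [hE2]; simp only [hq]; ring
    have hld : 0 < lam - δ := by linarith
    have hld2 : 0 < lam + 3 * th - δ := by linarith
    set ρ := lam * (1 + aa) / (lam + 3 * th - δ) with hρ
    have hρ1 : ρ ≤ 1 := by rw [hρ, div_le_one hld2]; exact h1
    have hρ0 : 0 ≤ ρ := by rw [hρ]; positivity
    set η := lam * (1 + 2 * ε * K1) / (lam - δ) - 1 with hηd
    have hη0 : 0 ≤ η := by
      rw [hηd, sub_nonneg, one_le_div hld]
      nlinarith [mul_pos hl (mul_pos hε hK)]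
    set P : ℝ → ℝ := fun s => 2 * Real.exp (-(δ * t)) * ((1 + η) * Real.exp (-((lam - δ) * s)) +
      ε * ρ * P2 * Real.exp (-((lam + 3 * th - δ) * s))) with hP
    have hderiv : ∀ s, HasDerivAt P (-q s) s := by
      intro s
      have d1 := hd1 (lam - δ) s
      have d2 := hd1 (lam + 3 * th - δ) s
      have d4 := ((d1.const_mul (1 + η)).add (d2.const_mul (ε * ρ * P2))).const_mul (2 * Real.exp (-(δ * t)))
      refine (d4.congr_deriv ?_)
      have e1 : (1 + η) * (lam - δ) = lam * (1 + 2 * ε * K1) := by rw [hηd]; field_simp; ring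
      have e2 : ρ * (lam + 3 * th - δ) = lam * (1 + aa) := by rw [hρ]; field_simp
      simp only [hq]
      rw [← e1, ← e2]; ring
    have hqc : Continuous q := by simp only [hq]; fun_prop
    have hint : ∫⁻ s in Ioc (0:ℝ) t, ENNReal.ofReal (lam * Real.exp (-(lam * s))) *
        ∫⁻ k, ENNReal.ofReal (B (s, k)) ∂mu12 ≤ ENNReal.ofReal (P 0 - P τ) := by
      rw [← int_deriv hτ0 hderiv hqc (fun s _ => hq0 s)]
      calc _ ≤ ∫⁻ s in Ioc (0:ℝ) t, (Ioc 0 τ).indicator (fun s => ENNReal.ofReal (q s)) s := by
            apply setLIntegral_mono ((hqc.measurable.ennreal_ofReal).indicator measurableSet_Ioc)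
            exact inner
        _ ≤ ∫⁻ s, (Ioc 0 τ).indicator (fun s => ENNReal.ofReal (q s)) s := setLIntegral_le_lintegral _ _
        _ = _ := lintegral_indicator measurableSet_Ioc _
    set y := Real.exp (-((lam - δ) * τ)) with hy
    have hy1 : y ≤ 1 := by
      rw [hy]; apply Real.exp_le_one_iff.2
      have := mul_nonneg hld.le hτ0
      linarith
    have hy0 : 0 < y := Real.exp_pos _
    -- boundary term
    have hbd : Real.exp (-(lam * t)) * neq (dr2 p t) ≤ Real.exp (-(δ * t)) * y := by
      by_cases htm : m ≤ t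
      · have : neq (dr2 p t) = 0 := by unfold neq; rw [if_pos (hzero t htm)]
        rw [this, mul_zero]; positivity
      · push Not at htm
        have hτt : τ = t := min_eq_left htm.le
        have : Real.exp (-(lam * t)) = Real.exp (-(δ * t)) * y := by
          rw [hy, hτt, ← Real.exp_add]; congr 1; ring
        rw [← this]
        have := neq_le (dr2 p t)
        have h2 := Real.exp_pos (-(lam * t))
        nlinarith
    have hPP : P 0 - P τ ≤ 2 * Real.exp (-(δ * t)) * ((1 + η) * (1 - y) + ε * ρ * P2) := by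
      simp only [hP, mul_zero, neg_zero, Real.exp_zero, mul_one]
      have h3 := Real.exp_pos (-((lam + 3 * th - δ) * τ))
      have h4 : 0 ≤ ε * ρ * P2 := by positivity
      have h5 : 0 ≤ ε * ρ * P2 * Real.exp (-((lam + 3 * th - δ) * τ)) := by positivity
      rw [← mul_sub]
      apply mul_le_mul_of_nonneg_left _ (by positivity)
      rw [← hy]
      linarith
    have hPP0 : 0 ≤ P 0 - P τ := int_nonneg hτ0 hderiv hqc (fun s _ => hq0 s)
    have hfinal : Real.exp (-(δ * t)) * y + 2 * Real.exp (-(δ * t)) * ((1 + η) * (1 - y) + ε * ρ * P2) ≤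
        2 * Real.exp (-(δ * t)) * (1 + ε * P2) := by
      have hkey : y / 2 + (1 + η) * (1 - y) + ε * ρ * P2 ≤ 1 + ε * P2 := by
        rcases hη with h | h
        · have hyl : Real.exp (-(lam * m)) ≤ y := by
            rw [hy]; apply Real.exp_le_exp.2
            have hτm : τ ≤ m := min_le_right _ _
            nlinarith
          have h6 : η ≤ y / 2 := by linarith
          have h7 : ε * ρ * P2 ≤ ε * P2 := by
            have : ε * P2 * ρ ≤ ε * P2 * 1 := mul_le_mul_of_nonneg_left hρ1 (by positivity)
            linarith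
          have h8 : η * (1 - y) ≤ η := by nlinarith
          nlinarith
        · have h9 : η * (1 - y) ≤ η := by nlinarith
          have h10 : ε * (1 - ρ) * P2 = ε * P2 - ε * ρ * P2 := by ring
          nlinarith
      have := Real.exp_pos (-(δ * t))
      nlinarith
    calc _ ≤ ENNReal.ofReal (Real.exp (-(lam * t))) * ENNReal.ofReal (neq (dr2 p t)) +
          ENNReal.ofReal (P 0 - P τ) := by gcongr
      _ = ENNReal.ofReal (Real.exp (-(lam * t)) * neq (dr2 p t) + (P 0 - P τ)) := by
          rw [← ENNReal.ofReal_mul (Real.exp_pos _).le, ← ENNReal.ofReal_add _ hPP0]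
          exact mul_nonneg (Real.exp_pos _).le (neq_nonneg _)
      _ ≤ _ := by
          apply ENNReal.ofReal_le_ofReal
          unfold Phi
          rw [hneq, mul_one]
          linarith

end Pool.Agent.H946R3.TriB
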