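import Pool.Agent.H946R3.Tri.BD
import Pool.Agent.Helper52.TriE
open MeasureTheory ProbabilityTheory Topology Set
open Filter hiding join
open scoped ENNReal NNReal BoundedContinuousFunction

set_option linter.unusedSectionVars false
namespace Pool.Agent.H946R3.TriB
open Pool.Agent.Helper52.Tri

theorem params {lam : ℝ} (hl : 0 < lam) (hD : lam * aa < 3 * th) :
    ∃ δ ε : ℝ, 0 < δ ∧ δ < lam ∧ 0 < ε ∧ lam * (1 + aa) ≤ lam + 3 * th - δ ∧
      ∀ p : Load × Load, Good p.1 → Good p.2 → ∃ m, 0 ≤ m ∧ (∀ i, p.1 i ≤ m) ∧ (∀ i, p.2 i ≤ m) ∧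
      (lam * (1 + 2 * ε * K1) / (lam - δ) - 1 ≤ Real.exp (-(lam * m)) / 2 ∨
       lam * (1 + 2 * ε * K1) / (lam - δ) - 1 ≤
        ε * (1 - lam * (1 + aa) / (lam + 3 * th - δ)) * (VV p.1 + VV p.2)) := by
  have hK := K1_pos
  have haa := aa_pos
  have hth := th_pos
  set D := 3 * th - lam * aa with hDd
  have hDp : 0 < D := by linarith
  set c0 := (D / 2) / (lam + 3 * th) with hc0
  have hc0p : 0 < c0 := by positivity
  set B := (4 * K1 + 2) / c0 with hB
  have hBp : 0 < B := by positivity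
  set mB := max 10 ((Real.log B / th + 16) / 3) with hmB
  have hmB0 : 0 ≤ mB := le_trans (by norm_num) (le_max_left _ _)
  set y0 := Real.exp (-(lam * mB)) with hy0
  have hy0p : 0 < y0 := Real.exp_pos _
  set ε := y0 / (2 * (4 * K1 + 2)) with hε
  have hεp : 0 < ε := by positivity
  set δ := min (D / 2) (min (ε * lam) (lam / 2)) with hδ
  have hδ1 : δ ≤ D / 2 := min_le_left _ _
  have hδ2 : δ ≤ ε * lam := (min_le_right _ _).trans (min_le_left _ _)
  have hδ3 : δ ≤ lam / 2 := (min_le_right _ _).trans (min_le_right _ _)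
  have hδp : 0 < δ := lt_min (by positivity) (lt_min (by positivity) (by positivity))
  have hη : lam * (1 + 2 * ε * K1) / (lam - δ) - 1 ≤ ε * (4 * K1 + 2) := by
    have hld : 0 < lam - δ := by linarith
    rw [sub_le_iff_le_add, div_le_iff₀ hld]
    have k1 : lam / 2 ≤ lam - δ := by linarith
    have k2 : 0 ≤ ε * (4 * K1 + 2) := by positivity
    have k3 : ε * (4 * K1 + 2) * (lam / 2) ≤ ε * (4 * K1 + 2) * (lam - δ) := mul_le_mul_of_nonneg_left k1 k2
    nlinarith
  refine ⟨δ, ε, hδp, by linarith, hεp, by linarith, ?_⟩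
  intro p hp1 hp2
  by_cases hP : VV p.1 + VV p.2 ≤ B
  · -- bounded case
    have hbd : ∀ W : Load, Good W → VV W ≤ B → ∀ i, W i ≤ mB := by
      intro W hW hV i
      rcases coord_le hW i with h | h
      · exact h.trans (le_max_left _ _)
      · have : th * U3 W ≤ Real.log B := by
          rw [Real.le_log_iff_exp_le hBp]; exact hV
        have h2 : U3 W ≤ Real.log B / th := by rw [le_div_iff₀ hth]; linarith
        exact le_trans (by linarith) (le_max_right _ _)
    refine ⟨mB, hmB0, hbd _ hp1 (by linarith [VV_pos p.2]), hbd _ hp2 (by linarith [VV_pos p.1]), Or.inl ?_⟩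
    refine hη.trans ?_
    rw [hε, ← hy0]
    apply le_of_eq
    field_simp
  · push Not at hP
    obtain ⟨m1, hm1⟩ : ∃ m1, ∀ i, p.1 i ≤ m1 := by
      exact ⟨∑ i, |p.1 i|, fun i => (le_abs_self _).trans (Finset.single_le_sum (f := fun i => |p.1 i|)
        (fun i _ => abs_nonneg _) (Finset.mem_univ i))⟩
    obtain ⟨m2, hm2⟩ : ∃ m2, ∀ i, p.2 i ≤ m2 := by
      exact ⟨∑ i, |p.2 i|, fun i => (le_abs_self _).trans (Finset.single_le_sum (f := fun i => |p.2 i|)
        (fun i _ => abs_nonneg _) (Finset.mem_univ i))⟩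
    refine ⟨max 0 (max m1 m2), le_max_left _ _, fun i => (hm1 i).trans ((le_max_left _ _).trans (le_max_right _ _)),
      fun i => (hm2 i).trans ((le_max_right _ _).trans (le_max_right _ _)), Or.inr ?_⟩
    refine hη.trans ?_
    have hρ : c0 ≤ 1 - lam * (1 + aa) / (lam + 3 * th - δ) := by
      have hld2 : 0 < lam + 3 * th - δ := by linarith
      have : 1 - lam * (1 + aa) / (lam + 3 * th - δ) = (D - δ) / (lam + 3 * th - δ) := by
        rw [hDd]; field_simp; ring
      rw [this, hc0, div_le_div_iff₀ (by positivity) hld2]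
      have k1 : D / 2 ≤ D - δ := by linarith
      have k2 : lam + 3 * th - δ ≤ lam + 3 * th := by linarith
      exact mul_le_mul k1 k2 hld2.le (by linarith)
    have e1 : ε * (4 * K1 + 2) = ε * c0 * B := by rw [hB]; field_simp
    rw [e1]
    apply mul_le_mul _ hP.le hBp.le
    · exact mul_nonneg hεp.le (hc0p.le.trans hρ)
    · exact mul_le_mul_of_nonneg_left hρ hεp.le

noncomputable abbrev PP (lam : ℝ) : Measure (ℕ → ℝ × (Fin 3 × (ℝ × ℝ))) := Measure.infinitePi (fun _ => kap lam)

section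
variable {lam : ℝ}

theorem couple_bound (hl : 0 < lam) {δ ε : ℝ} (hδ : 0 < δ) (hδl : δ < lam) (hε : 0 < ε)
    (h1 : lam * (1 + aa) ≤ lam + 3 * th - δ)
    (H : ∀ p : Load × Load, Good p.1 → Good p.2 → ∃ m, 0 ≤ m ∧ (∀ i, p.1 i ≤ m) ∧ (∀ i, p.2 i ≤ m) ∧
      (lam * (1 + 2 * ε * K1) / (lam - δ) - 1 ≤ Real.exp (-(lam * m)) / 2 ∨
       lam * (1 + 2 * ε * K1) / (lam - δ) - 1 ≤
        ε * (1 - lam * (1 + aa) / (lam + 3 * th - δ)) * (VV p.1 + VV p.2)))
    {x y : Load} (hx : Good x) (hy : Good y) {t : ℝ} (ht : 0 ≤ t) :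
    ∫⁻ ω, ENNReal.ofReal (neq (gW drain join x ω t, gW drain join y ω t)) ∂(PP lam) ≤
      ENNReal.ofReal (Phi δ ε t (x, y)) := by
  have hp := isProbabilityMeasure_expMeasure hl
  have h2 : ∀ ω, ENNReal.ofReal (neq (gW drain join x ω t, gW drain join y ω t)) =
      (fun p => ENNReal.ofReal (neq p)) (gW dr2 jn2 (x, y) ω t) := by
    intro ω; rw [gW2]
  simp only [h2]
  rw [expect_eq hl measurable_dr2 measurable_jn2 measurable_neq.ennreal_ofReal t (x, y)]
  refine Us_le (kap lam) (fun p => ENNReal.ofReal (neq p)) (fun t p => ENNReal.ofReal (Phi δ ε t p))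
    {p | Good p.1 ∧ Good p.2} ?_ ?_ ?_ ht ⟨hx, hy⟩
  · filter_upwards [ae_fst_pos (μK := mu12) hl] with z hz; exact hz.le
  · rintro p ⟨hp1, hp2⟩
    filter_upwards [Good_ae hl hp1, Good_ae hl hp2] with z a b
    exact ⟨a, b⟩
  · rintro t ht p ⟨hp1, hp2⟩
    exact pair_super hl hδ hδl hε h1 hp1 hp2 (H p hp1 hp2) ht

theorem moment_bound (hl : 0 < lam) {δ : ℝ} (hδ : 0 < δ) (hδl : δ < lam)
    (h1 : lam * (1 + aa) ≤ lam + 3 * th - δ) {x : Load} (hx : Good x) {t : ℝ} (ht : 0 ≤ t) :
    ∫⁻ ω, ENNReal.ofReal (VV (gW drain join x ω t)) ∂(PP lam) ≤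
      ENNReal.ofReal (VV x + 2 * (lam * K1 / δ)) := by
  have hp := isProbabilityMeasure_expMeasure hl
  have hK := K1_pos
  set A := lam * K1 / δ with hA
  have hA0 : 0 < A := by positivity
  have hAe : lam * K1 ≤ A * δ := by rw [hA]; apply le_of_eq; field_simp
  have e1 := expect_eq (μK := mu12) hl measurable_drain measurable_join measurable_VV.ennreal_ofReal t x
  have h2 : ∫⁻ ω, ENNReal.ofReal (VV (gW drain join x ω t)) ∂(PP lam) =
      Us (kap lam) drain join (fun y => ENNReal.ofReal (VV y)) t x := e1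
  rw [h2]
  refine le_trans (Us_le (kap lam) (fun y => ENNReal.ofReal (VV y)) (fun t y => ENNReal.ofReal
    (Real.exp (-(δ * t)) * VV y + A * (2 - Real.exp (-(δ * t))))) {y | Good y} ?_ ?_ ?_ ht hx) ?_
  · filter_upwards [ae_fst_pos (μK := mu12) hl] with z hz; exact hz.le
  · intro y hy; exact Good_ae hl hy
  · intro t ht y hy
    exact moment_super hl hδ h1 hAe hδl.le ht hy
  · apply ENNReal.ofReal_le_ofReal
    have h3 : Real.exp (-(δ * t)) ≤ 1 := by
      apply Real.exp_le_one_iff.2; have := mul_nonneg hδ.le ht; linarith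
    have h4 := Real.exp_pos (-(δ * t))
    have h5 := VV_pos x
    have h6 : Real.exp (-(δ * t)) * VV x ≤ VV x := by nlinarith
    have h7 : A * (2 - Real.exp (-(δ * t))) ≤ A * 2 := by
      apply mul_le_mul_of_nonneg_left _ hA0.le; linarith
    linarith

theorem measurable_gW' (x : Load) (t : ℝ) :
    Measurable (fun ω : ℕ → ℝ × (Fin 3 × (ℝ × ℝ)) => gW drain join x ω t) :=
  measurable_gW measurable_drain measurable_join x t

/-- the expectations are Cauchy as `t → ∞` -/
theorem cauchy_bound (hl : 0 < lam) (hD : lam * aa < 3 * th) :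
    ∃ C δ : ℝ, 0 < C ∧ 0 < δ ∧ ∀ (g : Load → ℝ≥0∞) (b : ℝ≥0), Measurable g → (∀ x, g x ≤ b) →
      ∀ s t, 0 ≤ s → 0 ≤ t →
      (∫⁻ ω, g (gW drain join 0 ω (s + t)) ∂(PP lam) ≤
        ∫⁻ ω, g (gW drain join 0 ω t) ∂(PP lam) + b * ENNReal.ofReal (C * Real.exp (-(δ * t)))) ∧
      (∫⁻ ω, g (gW drain join 0 ω t) ∂(PP lam) ≤
        ∫⁻ ω, g (gW drain join 0 ω (s + t)) ∂(PP lam) + b * ENNReal.ofReal (C * Real.exp (-(δ * t)))) := by
  have hp := isProbabilityMeasure_expMeasure hl
  obtain ⟨δ, ε, hδ, hδl, hε, h1, H⟩ := params hl hD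
  have hK := K1_pos
  set M0 := VV 0 + 2 * (lam * K1 / δ) with hM0
  have hM0p : 0 < M0 := by have := VV_pos 0; positivity
  have hV0 := VV_pos 0
  set C := 2 * (1 + ε * (M0 + VV 0)) with hC
  refine ⟨C, δ, by positivity, hδ, ?_⟩
  intro g b hg hgb s t hs ht
  have hpos : ∀ᵐ z ∂(kap lam), 0 ≤ z.1 := by
    filter_upwards [ae_fst_pos (μK := mu12) hl] with z hz; exact hz.le
  have hE : ∀ (h : Load → ℝ≥0∞), Measurable h → ∀ r x, ∫⁻ ω, h (gW drain join x ω r) ∂(PP lam) =
      Us (kap lam) drain join h r x := fun h hh r x =>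
    expect_eq (μK := mu12) hl measurable_drain measurable_join hh r x
  set F := ∫⁻ ω, g (gW drain join 0 ω t) ∂(PP lam) with hF
  -- pointwise comparison of Us g t y and F
  have hmg := measurable_gW'
  have comp : ∀ x y, Good x → Good y → ∫⁻ ω, g (gW drain join x ω t) ∂(PP lam) ≤
      ∫⁻ ω, g (gW drain join y ω t) ∂(PP lam) + b * ENNReal.ofReal (Phi δ ε t (x, y)) := by
    intro x y hx hy
    have hm2 : Measurable (fun ω : ℕ → ℝ × (Fin 3 × (ℝ × ℝ)) =>
        ENNReal.ofReal (neq (gW drain join x ω t, gW drain join y ω t))) :=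
      (measurable_neq.comp ((hmg x t).prodMk (hmg y t))).ennreal_ofReal
    calc _ ≤ ∫⁻ ω, (g (gW drain join y ω t) +
          b * ENNReal.ofReal (neq (gW drain join x ω t, gW drain join y ω t))) ∂(PP lam) := by
          apply lintegral_mono
          intro ω
          dsimp only
          by_cases h : gW drain join x ω t = gW drain join y ω t
          · rw [h]; exact le_self_add
          · have : neq (gW drain join x ω t, gW drain join y ω t) = 1 := by
              unfold neq; rw [if_neg h]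
            rw [this, ENNReal.ofReal_one, mul_one]
            exact (hgb _).trans le_add_self
      _ = ∫⁻ ω, g (gW drain join y ω t) ∂(PP lam) + b * ∫⁻ ω,
          ENNReal.ofReal (neq (gW drain join x ω t, gW drain join y ω t)) ∂(PP lam) := by
          have hgm : Measurable (fun ω : ℕ → ℝ × (Fin 3 × (ℝ × ℝ)) => g (gW drain join y ω t)) := hg.comp (hmg y t)
          rw [lintegral_add_left hgm, lintegral_const_mul _ hm2]
      _ ≤ _ := by
          gcongr
          exact couple_bound hl hδ hδl hε h1 H hx hy ht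
  have hUg : Measurable (fun y => Us (kap lam) drain join g t y) :=
    (measurable_Us (kap lam) measurable_drain measurable_join hg).comp (measurable_const.prodMk measurable_id)
  have hsemi : ∫⁻ ω, g (gW drain join 0 ω (s + t)) ∂(PP lam) =
      ∫⁻ ω, Us (kap lam) drain join g t (gW drain join 0 ω s) ∂(PP lam) := by
    rw [hE g hg, hE _ hUg]
    exact Us_semigroup hl measurable_drain measurable_join (fun x s t hs ht => drain_drain x s t hs ht) hg ht s hs 0
  -- the error function
  set e : Load → ℝ≥0∞ := fun y => b * ENNReal.ofReal (2 * Real.exp (-(δ * t)) * (1 + ε * (VV y + VV 0))) with he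
  have hem : Measurable e := by
    simp only [he]
    apply Measurable.const_mul
    apply Measurable.ennreal_ofReal
    exact ((((measurable_VV.add_const (VV 0)).const_mul ε).const_add 1).const_mul _)
  have hPhi1 : ∀ y, b * ENNReal.ofReal (Phi δ ε t (y, 0)) ≤ e y := by
    intro y
    simp only [he]
    gcongr
    unfold Phi
    dsimp only
    have hy := VV_pos y
    have h0 : 0 ≤ 2 * Real.exp (-(δ * t)) * (1 + ε * (VV y + VV 0)) := by positivity
    calc _ ≤ 2 * Real.exp (-(δ * t)) * (1 + ε * (VV y + VV 0)) * 1 :=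
          mul_le_mul_of_nonneg_left (neq_le _) h0
      _ = _ := mul_one _
  have hPhi2 : ∀ y, b * ENNReal.ofReal (Phi δ ε t (0, y)) ≤ e y := by
    intro y
    simp only [he]
    gcongr
    unfold Phi
    dsimp only
    have hy := VV_pos y
    have h0 : 0 ≤ 2 * Real.exp (-(δ * t)) * (1 + ε * (VV 0 + VV y)) := by positivity
    calc _ ≤ 2 * Real.exp (-(δ * t)) * (1 + ε * (VV 0 + VV y)) * 1 :=
          mul_le_mul_of_nonneg_left (neq_le _) h0
      _ = _ := by rw [mul_one, add_comm (VV 0)]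
  have heint : ∫⁻ ω, e (gW drain join 0 ω s) ∂(PP lam) ≤ b * ENNReal.ofReal (C * Real.exp (-(δ * t))) := by
    simp only [he]
    have hmv : Measurable (fun ω : ℕ → ℝ × (Fin 3 × (ℝ × ℝ)) => ENNReal.ofReal (VV (gW drain join 0 ω s))) :=
      (measurable_VV.comp (hmg 0 s)).ennreal_ofReal
    have hmm : Measurable (fun ω : ℕ → ℝ × (Fin 3 × (ℝ × ℝ)) =>
        ENNReal.ofReal (2 * Real.exp (-(δ * t)) * (1 + ε * (VV (gW drain join 0 ω s) + VV 0)))) := by
      apply Measurable.ennreal_ofReal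
      exact (((((measurable_VV.comp (hmg 0 s)).add_const (VV 0)).const_mul ε).const_add 1).const_mul _)
    rw [lintegral_const_mul _ hmm]
    gcongr
    have hsplit : ∀ ω : ℕ → ℝ × (Fin 3 × (ℝ × ℝ)), ENNReal.ofReal
        (2 * Real.exp (-(δ * t)) * (1 + ε * (VV (gW drain join 0 ω s) + VV 0))) =
        ENNReal.ofReal (2 * Real.exp (-(δ * t)) * (1 + ε * VV 0)) +
        ENNReal.ofReal (2 * Real.exp (-(δ * t)) * ε) * ENNReal.ofReal (VV (gW drain join 0 ω s)) := by
      intro ω
      have := VV_pos (gW drain join 0 ω s)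
      rw [← ENNReal.ofReal_mul (by positivity), ← ENNReal.ofReal_add (by positivity) (by positivity)]
      congr 1; ring
    simp only [hsplit]
    rw [lintegral_add_left measurable_const, lintegral_const_mul _ hmv]
    simp only [lintegral_const, measure_univ, mul_one]
    calc _ ≤ ENNReal.ofReal (2 * Real.exp (-(δ * t)) * (1 + ε * VV 0)) +
        ENNReal.ofReal (2 * Real.exp (-(δ * t)) * ε) * ENNReal.ofReal M0 := by
          gcongr
          exact moment_bound hl hδ hδl h1 Good_zero hs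
      _ = _ := by
          rw [← ENNReal.ofReal_mul (by positivity), ← ENNReal.ofReal_add (by positivity) (by positivity)]
          congr 1; rw [hC]; ring
  have hmono : ∀ (f h : Load → ℝ≥0∞), Measurable f → Measurable h → (∀ x, Good x → f x ≤ h x) →
      ∫⁻ ω, f (gW drain join 0 ω s) ∂(PP lam) ≤ ∫⁻ ω, h (gW drain join 0 ω s) ∂(PP lam) := by
    intro f h hf hh hfh
    rw [hE f hf, hE h hh]
    exact Us_mono_on (kap lam) measurable_drain measurable_join hh {x | Good x} hpos
      (fun x hx => Good_ae hl hx) (fun x hx s hs => Good_drain hx hs) hfh hs Good_zero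
  have hUeq : ∀ y, Us (kap lam) drain join g t y = ∫⁻ ω, g (gW drain join y ω t) ∂(PP lam) :=
    fun y => (hE g hg t y).symm
  constructor
  · rw [hsemi]
    calc _ ≤ ∫⁻ ω, (fun y => F + e y) (gW drain join 0 ω s) ∂(PP lam) := by
          apply hmono _ _ hUg (measurable_const.add hem)
          intro y hy
          rw [hUeq]
          exact (comp y 0 hy Good_zero).trans (add_le_add le_rfl (hPhi1 y))
      _ = F + ∫⁻ ω, e (gW drain join 0 ω s) ∂(PP lam) := by
          rw [lintegral_add_left measurable_const]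
          simp
      _ ≤ _ := by gcongr
  · rw [hsemi]
    calc F = ∫⁻ ω, (fun _ => F) (gW drain join 0 ω s) ∂(PP lam) := by simp
      _ ≤ ∫⁻ ω, (fun y => Us (kap lam) drain join g t y + e y) (gW drain join 0 ω s) ∂(PP lam) := by
          apply hmono _ _ measurable_const (hUg.add hem)
          intro y hy
          show F ≤ Us (kap lam) drain join g t y + e y
          rw [hUeq]
          exact (comp 0 y Good_zero hy).trans (add_le_add le_rfl (hPhi2 y))
      _ = ∫⁻ ω, Us (kap lam) drain join g t (gW drain join 0 ω s) ∂(PP lam) +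
          ∫⁻ ω, e (gW drain join 0 ω s) ∂(PP lam) := by
          have hUm : Measurable (fun ω : ℕ → ℝ × (Fin 3 × (ℝ × ℝ)) =>
              Us (kap lam) drain join g t (gW drain join 0 ω s)) := hUg.comp (hmg 0 s)
          rw [lintegral_add_left hUm]
      _ ≤ _ := by gcongr

/-- tightness -/
theorem tight_bound (hl : 0 < lam) (hD : lam * aa < 3 * th) :
    ∃ C : ℝ, 0 < C ∧ ∀ (m : ℕ) (t : ℝ), 0 ≤ t →
      (PP lam) {ω | gW drain join 0 ω t ∉ Icc (0 : Load) (fun _ => (m : ℝ) + 10)} ≤
        ENNReal.ofReal (C * Real.exp (-(3 * th * m))) := by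
  have hp := isProbabilityMeasure_expMeasure hl
  obtain ⟨δ, ε, hδ, hδl, hε, h1, H⟩ := params hl hD
  have hK := K1_pos
  have hV0 := VV_pos 0
  set M0 := VV 0 + 2 * (lam * K1 / δ) with hM0
  have hM0p : 0 < M0 := by positivity
  refine ⟨M0, hM0p, ?_⟩
  intro m t ht
  have hmK : MeasurableSet (Icc (0 : Load) (fun _ => (m : ℝ) + 10)) := measurableSet_Icc
  have hpos : ∀ᵐ z ∂(kap lam), 0 ≤ z.1 := by
    filter_upwards [ae_fst_pos (μK := mu12) hl] with z hz; exact hz.le
  have hE : ∀ (h : Load → ℝ≥0∞), Measurable h → ∀ r x, ∫⁻ ω, h (gW drain join x ω r) ∂(PP lam) =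
      Us (kap lam) drain join h r x := fun h hh r x =>
    expect_eq (μK := mu12) hl measurable_drain measurable_join hh r x
  have e0 : (PP lam) {ω | gW drain join 0 ω t ∉ Icc (0 : Load) (fun _ => (m : ℝ) + 10)} =
      ∫⁻ ω, ((Icc (0 : Load) (fun _ => (m : ℝ) + 10))ᶜ.indicator 1 : Load → ℝ≥0∞) (gW drain join 0 ω t) ∂(PP lam) := by
    have hset : {ω : ℕ → ℝ × (Fin 3 × (ℝ × ℝ)) | gW drain join 0 ω t ∉ Icc (0 : Load) (fun _ => (m : ℝ) + 10)} =
      (fun ω => gW drain join 0 ω t) ⁻¹' (Icc (0 : Load) (fun _ => (m : ℝ) + 10))ᶜ := rfl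
    rw [hset, ← lintegral_indicator_one ((measurable_gW' 0 t) hmK.compl)]
    rfl
  rw [e0, hE _ (measurable_one.indicator hmK.compl)]
  have hh : Measurable (fun y : Load => ENNReal.ofReal (Real.exp (-(3 * th * m))) * ENNReal.ofReal (VV y)) :=
    measurable_VV.ennreal_ofReal.const_mul _
  refine le_trans (Us_mono_on (kap lam) measurable_drain measurable_join hh {x | Good x} hpos
      (fun x hx => Good_ae hl hx) (fun x hx s hs => Good_drain hx hs) ?_ ht Good_zero) ?_
  · intro x hx
    by_cases hxK : x ∈ Icc (0 : Load) (fun _ => (m : ℝ) + 10)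
    · rw [indicator_of_notMem (by simpa using hxK)]; exact zero_le
    · rw [indicator_of_mem (by simpa using hxK)]
      obtain ⟨i, hi⟩ : ∃ i, (m : ℝ) + 10 < x i := by
        by_contra hcon
        push Not at hcon
        exact hxK ⟨fun i => hx.1 i, fun i => hcon i⟩
      have hm0 : (0:ℝ) ≤ m := Nat.cast_nonneg m
      have h3 : 3 * x i ≤ U3 x + 16 := by
        rcases coord_le hx i with h | h
        · linarith
        · exact h
      rw [← ENNReal.ofReal_mul (Real.exp_pos _).le]
      show (1:ℝ≥0∞) ≤ _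
      rw [ENNReal.one_le_ofReal]
      unfold VV
      rw [← Real.exp_add]
      apply Real.one_le_exp
      have := th_pos
      nlinarith
  · have hmv : Measurable (fun ω : ℕ → ℝ × (Fin 3 × (ℝ × ℝ)) => ENNReal.ofReal (VV (gW drain join 0 ω t))) :=
      (measurable_VV.comp (measurable_gW' 0 t)).ennreal_ofReal
    rw [← hE _ hh, lintegral_const_mul _ hmv]
    calc _ ≤ ENNReal.ofReal (Real.exp (-(3 * th * m))) * ENNReal.ofReal M0 := by
          gcongr
          exact moment_bound hl hδ hδl h1 Good_zero ht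
      _ = _ := by rw [← ENNReal.ofReal_mul (Real.exp_pos _).le, mul_comm]

end

end Pool.Agent.H946R3.TriB
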